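import Pool.Agent.Strip051.LB.A0m0m_mm
import Pool.Agent.Strip051.LB.A0m0m_pm
import Pool.Agent.Strip051.LB.A0m0m_pp
import Pool.Agent.Strip051.LB.A0m0p_mm
import Pool.Agent.Strip051.LB.A0m0p_pm
import Pool.Agent.Strip051.LB.A0m0p_pp
import Pool.Agent.Strip051.LB.A0p0m_mm
import Pool.Agent.Strip051.LB.A0p0m_pm
import Pool.Agent.Strip051.LB.A0p0m_pp
import Pool.Agent.Strip051.LB.ChA00U_pm_012
import Pool.Agent.Strip051.LB.ChA00U_pm_112
import Pool.Agent.Strip051.LB.ChA00V1_pm_123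
import Pool.Agent.Strip051.LB.ChA00V1_pp_022
import Pool.Agent.Strip051.LB.ChA00V1_pp_023
import Pool.Agent.Strip051.LB.ChA00V1_pp_123
import Pool.Agent.Strip051.LB.Mir
import Pool.Agent.Strip051.LC.Line.Emp
import Pool.Agent.Strip051.LC.Line.GlueA

/-! # The family A, curves 0 and 0 -/

namespace Pool.Agent.Strip051.LC.Line.Glue

open Pool.Agent.StripNear Pool.Agent.StripSquare Pool.Agent.Strip051.Sweep
  Pool.Agent.Strip051.LC Pool.Agent.Strip051.LC.Line Pool.Agent.Strip051.LB.Fn Pool.Agent.Strip051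

theorem A00_pp_001 : TriA 0 0 1 0 0 1 1 := by
  intro t t' H
  have hp := h0_pos
  obtain ⟨a1, a2⟩ := Q0.1 H.q1
  obtain ⟨b1, b2⟩ := Q0.1 H.q2
  obtain ⟨g1, g2⟩ := Q1.1 H.q3
  have e1 := pls (nd_00 H.q1)
  have v1 := pls (vl_00 H.q1 H.d1)
  have e2 := pls (nd_00 H.q2)
  have v2 := pls (vl_00 H.q2 H.d2)
  have key := LB.A0m0m_pp.fin001 (t := t) (t2 := t') (by linarith) (by linarith) (by linarith) (by linarith) (by linarith) (by linarith) (by linarith) (hoA H e1 e2) (l1A H e1 e2) (l3A H e1 e2)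
  exact useA_001 H (Or.inl rfl) (Or.inl rfl) e1 e2 v1 v2 key.le

theorem A00_pp_011 (c011 : CubeA 0 1 1 0 0 1 1) : TriA 0 1 1 0 0 1 1 := by
  intro t t' H
  have hp := h0_pos
  obtain ⟨a1, a2⟩ := Q0.1 H.q1
  obtain ⟨b1, b2⟩ := Q1.1 H.q2
  obtain ⟨g1, g2⟩ := Q1.1 H.q3
  have e1 := pls (nd_00 H.q1)
  have v1 := pls (vl_00 H.q1 H.d1)
  have e2 := pls (nd_01 H.q2)
  have v2 := pls (vl_01 H.q2 H.d2)
  have key := LB.A0m0m_pp.fin011 (t := t) (t2 := t') (by linarith) (by linarith) (by linarith) (by linarith) (by linarith) (by linarith) (by linarith) (hoA H e1 e2) (l1A H e1 e2) (l3A H e1 e2)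
  rcases key with ⟨k1, k2, k3⟩ | key
  · refine c011 t t' H ?_
    simp only [Near, co, abs_lt]
    exact ⟨⟨by linarith, by linarith⟩, ⟨by linarith, by linarith⟩, ⟨by linarith, by linarith⟩⟩
  · exact useA_011 H (Or.inl rfl) (Or.inl rfl) e1 e2 v1 v2 key.le

theorem A00_pp_012 (c012 : CubeA 0 1 2 0 0 1 1) : TriA 0 1 2 0 0 1 1 := by
  intro t t' H
  have hp := h0_pos
  obtain ⟨a1, a2⟩ := Q0.1 H.q1
  obtain ⟨b1, b2⟩ := Q1.1 H.q2
  obtain ⟨g1, g2⟩ := Q2.1 H.q3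
  have e1 := pls (nd_00 H.q1)
  have v1 := pls (vl_00 H.q1 H.d1)
  have e2 := pls (nd_01 H.q2)
  have v2 := pls (vl_01 H.q2 H.d2)
  have key := LB.A0m0m_pp.fin012 (t := t) (t2 := t') (by linarith) (by linarith) (by linarith) (by linarith) (by linarith) (by linarith) (by linarith) (hoA H e1 e2) (l1A H e1 e2) (l3A H e1 e2)
  rcases key with ⟨k1, k2, k3⟩ | key
  · refine c012 t t' H ?_
    simp only [Near, co, abs_lt]
    exact ⟨⟨by linarith, by linarith⟩, ⟨by linarith, by linarith⟩, ⟨by linarith, by linarith⟩⟩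
  · exact useA_012 H (Or.inl rfl) (Or.inl rfl) e1 e2 v1 v2 key.le

theorem A00_pp_022 : TriA 0 2 2 0 0 1 1 := by
  intro t t' H
  have hp := h0_pos
  obtain ⟨a1, a2⟩ := Q0.1 H.q1
  obtain ⟨b1, b2⟩ := Q2.1 H.q2
  obtain ⟨g1, g2⟩ := Q2.1 H.q3
  have e1 := pls (nd_00 H.q1)
  have v1 := pls (vl_00 H.q1 H.d1)
  have e2 := pls (nd_02 H.q2)
  have v2 := pls (vl_02 H.q2 H.d2)
  have key := LB.A0m0p_pp.fin022 (t := t) (t2 := t') (by linarith) (by linarith) (by linarith) (by linarith) (by linarith) (by linarith) ((show t' < 1 from H.d2).le) (by linarith) (hoA H e1 e2) (l1A H e1 e2) (l3A H e1 e2)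
  rcases key with ⟨k1, k2⟩ | key
  · refine useA_022 H (Or.inl rfl) (Or.inl rfl) e1 e2 v1 v2 (LB.ChA00V1_pp_022.tight022 (t := t) (t2 := t') (by linarith) (by linarith) (by linarith) (by linarith) (by linarith) (by linarith) ((show t' < 1 from H.d2).le) (by linarith) (hoA H e1 e2) (l1A H e1 e2) (l3A H e1 e2) k1.le k2.le)
  · exact useA_022 H (Or.inl rfl) (Or.inl rfl) e1 e2 v1 v2 key.le

theorem A00_pp_023 : TriA 0 2 3 0 0 1 1 := by
  intro t t' H
  have hp := h0_pos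
  obtain ⟨a1, a2⟩ := Q0.1 H.q1
  obtain ⟨b1, b2⟩ := Q2.1 H.q2
  obtain ⟨g1, g2⟩ := Q3.1 H.q3
  have e1 := pls (nd_00 H.q1)
  have v1 := pls (vl_00 H.q1 H.d1)
  have e2 := pls (nd_02 H.q2)
  have v2 := pls (vl_02 H.q2 H.d2)
  have key := LB.A0m0p_pp.fin023 (t := t) (t2 := t') (by linarith) (by linarith) (by linarith) (by linarith) (by linarith) (by linarith) ((show t' < 1 from H.d2).le) (by linarith) (hoA H e1 e2) (l1A H e1 e2) (l3A H e1 e2)
  rcases key with ⟨k1, k2⟩ | key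
  · refine useA_023 H (Or.inl rfl) (Or.inl rfl) e1 e2 v1 v2 (LB.ChA00V1_pp_023.tight023 (t := t) (t2 := t') (by linarith) (by linarith) (by linarith) (by linarith) (by linarith) (by linarith) ((show t' < 1 from H.d2).le) (by linarith) (hoA H e1 e2) (l1A H e1 e2) (l3A H e1 e2) k1.le k2.le)
  · exact useA_023 H (Or.inl rfl) (Or.inl rfl) e1 e2 v1 v2 key.le

theorem A00_pp_033 : TriA 0 3 3 0 0 1 1 := fun _ _ H => (no_c1 H.q2 H.d2).elim

theorem A00_pp_101 : TriA 1 0 1 0 0 1 1 := by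
  intro t t' H
  have hp := h0_pos
  obtain ⟨a1, a2⟩ := Q1.1 H.q1
  obtain ⟨b1, b2⟩ := Q0.1 H.q2
  obtain ⟨g1, g2⟩ := Q1.1 H.q3
  have e1 := pls (nd_01 H.q1)
  have v1 := pls (vl_01 H.q1 H.d1)
  have e2 := pls (nd_00 H.q2)
  have v2 := pls (vl_00 H.q2 H.d2)
  have key := LB.A0m0m_pp.fin101 (t := t) (t2 := t') (by linarith) (by linarith) (by linarith) (by linarith) (by linarith) (by linarith) (by linarith) (hoA H e1 e2) (l1A H e1 e2) (l3A H e1 e2)
  exact useA_101 H (Or.inl rfl) (Or.inl rfl) e1 e2 v1 v2 key.le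

theorem A00_pp_102 : TriA 1 0 2 0 0 1 1 := by
  intro t t' H
  have hp := h0_pos
  obtain ⟨a1, a2⟩ := Q1.1 H.q1
  obtain ⟨b1, b2⟩ := Q0.1 H.q2
  obtain ⟨g1, g2⟩ := Q2.1 H.q3
  have e1 := pls (nd_01 H.q1)
  have v1 := pls (vl_01 H.q1 H.d1)
  have e2 := pls (nd_00 H.q2)
  have v2 := pls (vl_00 H.q2 H.d2)
  have key := LB.A0m0m_pp.fin102 (t := t) (t2 := t') (by linarith) (by linarith) (by linarith) (by linarith) (by linarith) (by linarith) (by linarith) (hoA H e1 e2) (l1A H e1 e2) (l3A H e1 e2)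
  exact useA_102 H (Or.inl rfl) (Or.inl rfl) e1 e2 v1 v2 key.le

theorem A00_pp_112 : TriA 1 1 2 0 0 1 1 := by
  intro t t' H
  have hp := h0_pos
  obtain ⟨a1, a2⟩ := Q1.1 H.q1
  obtain ⟨b1, b2⟩ := Q1.1 H.q2
  obtain ⟨g1, g2⟩ := Q2.1 H.q3
  have e1 := pls (nd_01 H.q1)
  have v1 := pls (vl_01 H.q1 H.d1)
  have e2 := pls (nd_01 H.q2)
  have v2 := pls (vl_01 H.q2 H.d2)
  have key := LB.A0m0m_pp.fin112 (t := t) (t2 := t') (by linarith) (by linarith) (by linarith) (by linarith) (by linarith) (by linarith) (by linarith) (hoA H e1 e2) (l1A H e1 e2) (l3A H e1 e2)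
  exact useA_112 H (Or.inl rfl) (Or.inl rfl) e1 e2 v1 v2 key.le

theorem A00_pp_113 : TriA 1 1 3 0 0 1 1 := by
  intro t t' H
  have hp := h0_pos
  obtain ⟨a1, a2⟩ := Q1.1 H.q1
  obtain ⟨b1, b2⟩ := Q1.1 H.q2
  obtain ⟨g1, g2⟩ := Q3.1 H.q3
  have e1 := pls (nd_01 H.q1)
  have v1 := pls (vl_01 H.q1 H.d1)
  have e2 := pls (nd_01 H.q2)
  have v2 := pls (vl_01 H.q2 H.d2)
  have key := LB.A0m0m_pp.fin113 (t := t) (t2 := t') (by linarith) (by linarith) (by linarith) (by linarith) (by linarith) (by linarith) (by linarith) (hoA H e1 e2) (l1A H e1 e2) (l3A H e1 e2)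
  exact useA_113 H (Or.inl rfl) (Or.inl rfl) e1 e2 v1 v2 key.le

theorem A00_pp_123 : TriA 1 2 3 0 0 1 1 := by
  intro t t' H
  have hp := h0_pos
  obtain ⟨a1, a2⟩ := Q1.1 H.q1
  obtain ⟨b1, b2⟩ := Q2.1 H.q2
  obtain ⟨g1, g2⟩ := Q3.1 H.q3
  have e1 := pls (nd_01 H.q1)
  have v1 := pls (vl_01 H.q1 H.d1)
  have e2 := pls (nd_02 H.q2)
  have v2 := pls (vl_02 H.q2 H.d2)
  have key := LB.A0m0p_pp.fin123 (t := t) (t2 := t') (by linarith) (by linarith) (by linarith) (by linarith) (by linarith) (by linarith) ((show t' < 1 from H.d2).le) (by linarith) (hoA H e1 e2) (l1A H e1 e2) (l3A H e1 e2)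
  rcases key with ⟨k1, k2⟩ | key
  · refine useA_123 H (Or.inl rfl) (Or.inl rfl) e1 e2 v1 v2 (LB.ChA00V1_pp_123.tight123 (t := t) (t2 := t') (by linarith) (by linarith) (by linarith) (by linarith) (by linarith) (by linarith) ((show t' < 1 from H.d2).le) (by linarith) (hoA H e1 e2) (l1A H e1 e2) (l3A H e1 e2) k1.le k2.le)
  · exact useA_123 H (Or.inl rfl) (Or.inl rfl) e1 e2 v1 v2 key.le

theorem A00_pp_133 : TriA 1 3 3 0 0 1 1 := fun _ _ H => (no_c1 H.q2 H.d2).elim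

theorem A00_pp_202 : TriA 2 0 2 0 0 1 1 := by
  intro t t' H
  have hp := h0_pos
  obtain ⟨a1, a2⟩ := Q2.1 H.q1
  obtain ⟨b1, b2⟩ := Q0.1 H.q2
  obtain ⟨g1, g2⟩ := Q2.1 H.q3
  have e1 := pls (nd_02 H.q1)
  have v1 := pls (vl_02 H.q1 H.d1)
  have e2 := pls (nd_00 H.q2)
  have v2 := pls (vl_00 H.q2 H.d2)
  have key := LB.A0p0m_pp.fin202 (t := t) (t2 := t') (by linarith) (by linarith) (by linarith) (by linarith) (by linarith) (by linarith) ((show t < 1 from H.d1).le) (by linarith) (hoA H e1 e2) (l1A H e1 e2) (l3A H e1 e2)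
  rcases key with ⟨k1, k2⟩ | key
  · exact (Emp.eA0p0m_pp_202 (t := t) (t2 := t') (by linarith) (by linarith) (by linarith) (by linarith) (by linarith) (by linarith) ((show t < 1 from H.d1).le) (by linarith) (hoA H e1 e2) (l1A H e1 e2) (l3A H e1 e2) k1.le k2.le).elim
  · exact useA_202 H (Or.inl rfl) (Or.inl rfl) e1 e2 v1 v2 key.le

theorem A00_pp_203 : TriA 2 0 3 0 0 1 1 := by
  intro t t' H
  have hp := h0_pos
  obtain ⟨a1, a2⟩ := Q2.1 H.q1
  obtain ⟨b1, b2⟩ := Q0.1 H.q2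
  obtain ⟨g1, g2⟩ := Q3.1 H.q3
  have e1 := pls (nd_02 H.q1)
  have v1 := pls (vl_02 H.q1 H.d1)
  have e2 := pls (nd_00 H.q2)
  have v2 := pls (vl_00 H.q2 H.d2)
  have key := LB.A0p0m_pp.fin203 (t := t) (t2 := t') (by linarith) (by linarith) (by linarith) (by linarith) (by linarith) (by linarith) ((show t < 1 from H.d1).le) (by linarith) (hoA H e1 e2) (l1A H e1 e2) (l3A H e1 e2)
  rcases key with ⟨k1, k2⟩ | key
  · exact (Emp.eA0p0m_pp_203 (t := t) (t2 := t') (by linarith) (by linarith) (by linarith) (by linarith) (by linarith) (by linarith) ((show t < 1 from H.d1).le) (by linarith) (hoA H e1 e2) (l1A H e1 e2) (l3A H e1 e2) k1.le k2.le).elim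
  · exact useA_203 H (Or.inl rfl) (Or.inl rfl) e1 e2 v1 v2 key.le

theorem A00_pp_213 : TriA 2 1 3 0 0 1 1 := by
  intro t t' H
  have hp := h0_pos
  obtain ⟨a1, a2⟩ := Q2.1 H.q1
  obtain ⟨b1, b2⟩ := Q1.1 H.q2
  obtain ⟨g1, g2⟩ := Q3.1 H.q3
  have e1 := pls (nd_02 H.q1)
  have v1 := pls (vl_02 H.q1 H.d1)
  have e2 := pls (nd_01 H.q2)
  have v2 := pls (vl_01 H.q2 H.d2)
  have key := LB.A0p0m_pp.fin213 (t := t) (t2 := t') (by linarith) (by linarith) (by linarith) (by linarith) (by linarith) (by linarith) ((show t < 1 from H.d1).le) (by linarith) (hoA H e1 e2) (l1A H e1 e2) (l3A H e1 e2)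
  rcases key with ⟨k1, k2⟩ | key
  · exact (Emp.eA0p0m_pp_213 (t := t) (t2 := t') (by linarith) (by linarith) (by linarith) (by linarith) (by linarith) (by linarith) ((show t < 1 from H.d1).le) (by linarith) (hoA H e1 e2) (l1A H e1 e2) (l3A H e1 e2) k1.le k2.le).elim
  · exact useA_213 H (Or.inl rfl) (Or.inl rfl) e1 e2 v1 v2 key.le

theorem A00_pp_303 : TriA 3 0 3 0 0 1 1 := fun _ _ H => (no_c1 H.q1 H.d1).elim

theorem A00_pp_313 : TriA 3 1 3 0 0 1 1 := fun _ _ H => (no_c1 H.q1 H.d1).elim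

theorem A00_pm_001 : TriA 0 0 1 0 0 1 (-1) := by
  intro t t' H
  have hp := h0_pos
  obtain ⟨a1, a2⟩ := Q0.1 H.q1
  obtain ⟨b1, b2⟩ := Q0.1 H.q2
  obtain ⟨g1, g2⟩ := Q1.1 H.q3
  have e1 := pls (nd_00 H.q1)
  have v1 := pls (vl_00 H.q1 H.d1)
  have e2 := mns (nd_00 H.q2)
  have v2 := mns (vl_00 H.q2 H.d2)
  have key := LB.A0m0m_pm.fin001 (t := t) (t2 := t') (by linarith) (by linarith) (by linarith) (by linarith) (by linarith) (by linarith) (by linarith) (hoA H e1 e2) (l1A H e1 e2) (l3A H e1 e2)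
  exact useA_001 H (Or.inl rfl) (Or.inr rfl) e1 e2 v1 v2 key.le

theorem A00_pm_011 (c011 : CubeA 0 1 1 0 0 1 (-1)) : TriA 0 1 1 0 0 1 (-1) := by
  intro t t' H
  have hp := h0_pos
  obtain ⟨a1, a2⟩ := Q0.1 H.q1
  obtain ⟨b1, b2⟩ := Q1.1 H.q2
  obtain ⟨g1, g2⟩ := Q1.1 H.q3
  have e1 := pls (nd_00 H.q1)
  have v1 := pls (vl_00 H.q1 H.d1)
  have e2 := mns (nd_01 H.q2)
  have v2 := mns (vl_01 H.q2 H.d2)
  have key := LB.A0m0m_pm.fin011 (t := t) (t2 := t') (by linarith) (by linarith) (by linarith) (by linarith) (by linarith) (by linarith) (by linarith) (hoA H e1 e2) (l1A H e1 e2) (l3A H e1 e2)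
  rcases key with ⟨k1, k2, k3⟩ | key
  · refine c011 t t' H ?_
    simp only [Near, co, abs_lt]
    exact ⟨⟨by linarith, by linarith⟩, ⟨by linarith, by linarith⟩, ⟨by linarith, by linarith⟩⟩
  · exact useA_011 H (Or.inl rfl) (Or.inr rfl) e1 e2 v1 v2 key.le

theorem A00_pm_012 : TriA 0 1 2 0 0 1 (-1) := by
  intro t t' H
  have hp := h0_pos
  obtain ⟨a1, a2⟩ := Q0.1 H.q1
  obtain ⟨b1, b2⟩ := Q1.1 H.q2
  obtain ⟨g1, g2⟩ := Q2.1 H.q3
  have e1 := pls (nd_00 H.q1)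
  have v1 := pls (vl_00 H.q1 H.d1)
  have e2 := mns (nd_01 H.q2)
  have v2 := mns (vl_01 H.q2 H.d2)
  have key := LB.A0m0m_pm.fin012 (t := t) (t2 := t') (by linarith) (by linarith) (by linarith) (by linarith) (by linarith) (by linarith) (by linarith) (hoA H e1 e2) (l1A H e1 e2) (l3A H e1 e2)
  rcases key with ⟨k1, k2⟩ | key
  · refine useA_012 H (Or.inl rfl) (Or.inr rfl) e1 e2 v1 v2 (LB.ChA00U_pm_012.tight012 (t := t) (t2 := t') (by linarith) (by linarith) (by linarith) (by linarith) (by linarith) (by linarith) (by linarith) (hoA H e1 e2) (l1A H e1 e2) (l3A H e1 e2) k1.le k2.le)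
  · exact useA_012 H (Or.inl rfl) (Or.inr rfl) e1 e2 v1 v2 key.le

theorem A00_pm_022 (c022 : CubeA 0 2 2 0 0 1 (-1)) : TriA 0 2 2 0 0 1 (-1) := by
  intro t t' H
  have hp := h0_pos
  obtain ⟨a1, a2⟩ := Q0.1 H.q1
  obtain ⟨b1, b2⟩ := Q2.1 H.q2
  obtain ⟨g1, g2⟩ := Q2.1 H.q3
  have e1 := pls (nd_00 H.q1)
  have v1 := pls (vl_00 H.q1 H.d1)
  have e2 := mns (nd_02 H.q2)
  have v2 := mns (vl_02 H.q2 H.d2)
  have key := LB.A0m0p_pm.fin022 (t := t) (t2 := t') (by linarith) (by linarith) (by linarith) (by linarith) (by linarith) (by linarith) ((show t' < 1 from H.d2).le) (by linarith) (hoA H e1 e2) (l1A H e1 e2) (l3A H e1 e2)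
  rcases key with ⟨k1, k2, k3⟩ | ⟨k1, k2⟩ | key
  · refine c022 t t' H ?_
    simp only [Near, co, abs_lt]
    exact ⟨⟨by linarith, by linarith⟩, ⟨by linarith, by linarith⟩, ⟨by linarith, by linarith⟩⟩
  · exact (Emp.eA0m0p_pm_022 (t := t) (t2 := t') (by linarith) (by linarith) (by linarith) (by linarith) (by linarith) (by linarith) ((show t' < 1 from H.d2).le) (by linarith) (hoA H e1 e2) (l1A H e1 e2) (l3A H e1 e2) k1.le k2.le).elim
  · exact useA_022 H (Or.inl rfl) (Or.inr rfl) e1 e2 v1 v2 key.le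

theorem A00_pm_023 : TriA 0 2 3 0 0 1 (-1) := by
  intro t t' H
  have hp := h0_pos
  obtain ⟨a1, a2⟩ := Q0.1 H.q1
  obtain ⟨b1, b2⟩ := Q2.1 H.q2
  obtain ⟨g1, g2⟩ := Q3.1 H.q3
  have e1 := pls (nd_00 H.q1)
  have v1 := pls (vl_00 H.q1 H.d1)
  have e2 := mns (nd_02 H.q2)
  have v2 := mns (vl_02 H.q2 H.d2)
  have key := LB.A0m0p_pm.fin023 (t := t) (t2 := t') (by linarith) (by linarith) (by linarith) (by linarith) (by linarith) (by linarith) ((show t' < 1 from H.d2).le) (by linarith) (hoA H e1 e2) (l1A H e1 e2) (l3A H e1 e2)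
  rcases key with ⟨k1, k2⟩ | key
  · exact (Emp.eA0m0p_pm_023 (t := t) (t2 := t') (by linarith) (by linarith) (by linarith) (by linarith) (by linarith) (by linarith) ((show t' < 1 from H.d2).le) (by linarith) (hoA H e1 e2) (l1A H e1 e2) (l3A H e1 e2) k1.le k2.le).elim
  · exact useA_023 H (Or.inl rfl) (Or.inr rfl) e1 e2 v1 v2 key.le

theorem A00_pm_033 : TriA 0 3 3 0 0 1 (-1) := fun _ _ H => (no_c1 H.q2 H.d2).elim

theorem A00_pm_101 (c101 : CubeA 1 0 1 0 0 1 (-1)) : TriA 1 0 1 0 0 1 (-1) := by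
  intro t t' H
  have hp := h0_pos
  obtain ⟨a1, a2⟩ := Q1.1 H.q1
  obtain ⟨b1, b2⟩ := Q0.1 H.q2
  obtain ⟨g1, g2⟩ := Q1.1 H.q3
  have e1 := pls (nd_01 H.q1)
  have v1 := pls (vl_01 H.q1 H.d1)
  have e2 := mns (nd_00 H.q2)
  have v2 := mns (vl_00 H.q2 H.d2)
  have key := LB.A0m0m_pm.fin101 (t := t) (t2 := t') (by linarith) (by linarith) (by linarith) (by linarith) (by linarith) (by linarith) (by linarith) (hoA H e1 e2) (l1A H e1 e2) (l3A H e1 e2)
  rcases key with ⟨k1, k2, k3⟩ | key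
  · refine c101 t t' H ?_
    simp only [Near, co, abs_lt]
    exact ⟨⟨by linarith, by linarith⟩, ⟨by linarith, by linarith⟩, ⟨by linarith, by linarith⟩⟩
  · exact useA_101 H (Or.inl rfl) (Or.inr rfl) e1 e2 v1 v2 key.le

theorem A00_pm_102 : TriA 1 0 2 0 0 1 (-1) := by
  intro t t' H
  have hp := h0_pos
  obtain ⟨a1, a2⟩ := Q1.1 H.q1
  obtain ⟨b1, b2⟩ := Q0.1 H.q2
  obtain ⟨g1, g2⟩ := Q2.1 H.q3
  have e1 := pls (nd_01 H.q1)
  have v1 := pls (vl_01 H.q1 H.d1)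
  have e2 := mns (nd_00 H.q2)
  have v2 := mns (vl_00 H.q2 H.d2)
  have key := LB.A0m0m_pm.fin102 (t := t) (t2 := t') (by linarith) (by linarith) (by linarith) (by linarith) (by linarith) (by linarith) (by linarith) (hoA H e1 e2) (l1A H e1 e2) (l3A H e1 e2)
  rcases key with ⟨k1, k2⟩ | key
  · refine useA_102 H (Or.inl rfl) (Or.inr rfl) e1 e2 v1 v2 (LB.mir102_pm (fun _ _ => LB.ChA00U_pm_012.tight012) _ _ (by linarith) (by linarith) (by linarith) (by linarith) (by linarith) (by linarith) (by linarith) (hoA H e1 e2) (l1A H e1 e2) (l3A H e1 e2) k1.le k2.le)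
  · exact useA_102 H (Or.inl rfl) (Or.inr rfl) e1 e2 v1 v2 key.le

theorem A00_pm_112 : TriA 1 1 2 0 0 1 (-1) := by
  intro t t' H
  have hp := h0_pos
  obtain ⟨a1, a2⟩ := Q1.1 H.q1
  obtain ⟨b1, b2⟩ := Q1.1 H.q2
  obtain ⟨g1, g2⟩ := Q2.1 H.q3
  have e1 := pls (nd_01 H.q1)
  have v1 := pls (vl_01 H.q1 H.d1)
  have e2 := mns (nd_01 H.q2)
  have v2 := mns (vl_01 H.q2 H.d2)
  have key := LB.A0m0m_pm.fin112 (t := t) (t2 := t') (by linarith) (by linarith) (by linarith) (by linarith) (by linarith) (by linarith) (by linarith) (hoA H e1 e2) (l1A H e1 e2) (l3A H e1 e2)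
  rcases key with ⟨k1, k2⟩ | key
  · refine useA_112 H (Or.inl rfl) (Or.inr rfl) e1 e2 v1 v2 (LB.ChA00U_pm_112.tight112 (t := t) (t2 := t') (by linarith) (by linarith) (by linarith) (by linarith) (by linarith) (by linarith) (by linarith) (hoA H e1 e2) (l1A H e1 e2) (l3A H e1 e2) k1.le k2.le)
  · exact useA_112 H (Or.inl rfl) (Or.inr rfl) e1 e2 v1 v2 key.le

theorem A00_pm_113 (c113 : CubeA 1 1 3 0 0 1 (-1)) : TriA 1 1 3 0 0 1 (-1) := by
  intro t t' H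
  have hp := h0_pos
  obtain ⟨a1, a2⟩ := Q1.1 H.q1
  obtain ⟨b1, b2⟩ := Q1.1 H.q2
  obtain ⟨g1, g2⟩ := Q3.1 H.q3
  have e1 := pls (nd_01 H.q1)
  have v1 := pls (vl_01 H.q1 H.d1)
  have e2 := mns (nd_01 H.q2)
  have v2 := mns (vl_01 H.q2 H.d2)
  have key := LB.A0m0m_pm.fin113 (t := t) (t2 := t') (by linarith) (by linarith) (by linarith) (by linarith) (by linarith) (by linarith) (by linarith) (hoA H e1 e2) (l1A H e1 e2) (l3A H e1 e2)
  rcases key with ⟨k1, k2, k3⟩ | key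
  · refine c113 t t' H ?_
    simp only [Near, co, abs_lt]
    exact ⟨⟨by linarith, by linarith⟩, ⟨by linarith, by linarith⟩, ⟨by linarith, by linarith⟩⟩
  · exact useA_113 H (Or.inl rfl) (Or.inr rfl) e1 e2 v1 v2 key.le

theorem A00_pm_123 : TriA 1 2 3 0 0 1 (-1) := by
  intro t t' H
  have hp := h0_pos
  obtain ⟨a1, a2⟩ := Q1.1 H.q1
  obtain ⟨b1, b2⟩ := Q2.1 H.q2
  obtain ⟨g1, g2⟩ := Q3.1 H.q3
  have e1 := pls (nd_01 H.q1)
  have v1 := pls (vl_01 H.q1 H.d1)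
  have e2 := mns (nd_02 H.q2)
  have v2 := mns (vl_02 H.q2 H.d2)
  have key := LB.A0m0p_pm.fin123 (t := t) (t2 := t') (by linarith) (by linarith) (by linarith) (by linarith) (by linarith) (by linarith) ((show t' < 1 from H.d2).le) (by linarith) (hoA H e1 e2) (l1A H e1 e2) (l3A H e1 e2)
  rcases key with ⟨k1, k2⟩ | key
  · refine useA_123 H (Or.inl rfl) (Or.inr rfl) e1 e2 v1 v2 (LB.ChA00V1_pm_123.tight123 (t := t) (t2 := t') (by linarith) (by linarith) (by linarith) (by linarith) (by linarith) (by linarith) ((show t' < 1 from H.d2).le) (by linarith) (hoA H e1 e2) (l1A H e1 e2) (l3A H e1 e2) k1.le k2.le)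
  · exact useA_123 H (Or.inl rfl) (Or.inr rfl) e1 e2 v1 v2 key.le

theorem A00_pm_133 : TriA 1 3 3 0 0 1 (-1) := fun _ _ H => (no_c1 H.q2 H.d2).elim

theorem A00_pm_202 (c202 : CubeA 2 0 2 0 0 1 (-1)) : TriA 2 0 2 0 0 1 (-1) := by
  intro t t' H
  have hp := h0_pos
  obtain ⟨a1, a2⟩ := Q2.1 H.q1
  obtain ⟨b1, b2⟩ := Q0.1 H.q2
  obtain ⟨g1, g2⟩ := Q2.1 H.q3
  have e1 := pls (nd_02 H.q1)
  have v1 := pls (vl_02 H.q1 H.d1)
  have e2 := mns (nd_00 H.q2)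
  have v2 := mns (vl_00 H.q2 H.d2)
  have key := LB.A0p0m_pm.fin202 (t := t) (t2 := t') (by linarith) (by linarith) (by linarith) (by linarith) (by linarith) (by linarith) ((show t < 1 from H.d1).le) (by linarith) (hoA H e1 e2) (l1A H e1 e2) (l3A H e1 e2)
  rcases key with ⟨k1, k2, k3⟩ | ⟨k1, k2⟩ | key
  · refine c202 t t' H ?_
    simp only [Near, co, abs_lt]
    exact ⟨⟨by linarith, by linarith⟩, ⟨by linarith, by linarith⟩, ⟨by linarith, by linarith⟩⟩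
  · exact (Emp.eA0p0m_pm_202 (t := t) (t2 := t') (by linarith) (by linarith) (by linarith) (by linarith) (by linarith) (by linarith) ((show t < 1 from H.d1).le) (by linarith) (hoA H e1 e2) (l1A H e1 e2) (l3A H e1 e2) k1.le k2.le).elim
  · exact useA_202 H (Or.inl rfl) (Or.inr rfl) e1 e2 v1 v2 key.le

theorem A00_pm_203 : TriA 2 0 3 0 0 1 (-1) := by
  intro t t' H
  have hp := h0_pos
  obtain ⟨a1, a2⟩ := Q2.1 H.q1
  obtain ⟨b1, b2⟩ := Q0.1 H.q2
  obtain ⟨g1, g2⟩ := Q3.1 H.q3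
  have e1 := pls (nd_02 H.q1)
  have v1 := pls (vl_02 H.q1 H.d1)
  have e2 := mns (nd_00 H.q2)
  have v2 := mns (vl_00 H.q2 H.d2)
  have key := LB.A0p0m_pm.fin203 (t := t) (t2 := t') (by linarith) (by linarith) (by linarith) (by linarith) (by linarith) (by linarith) ((show t < 1 from H.d1).le) (by linarith) (hoA H e1 e2) (l1A H e1 e2) (l3A H e1 e2)
  rcases key with ⟨k1, k2⟩ | key
  · exact (Emp.eA0p0m_pm_203 (t := t) (t2 := t') (by linarith) (by linarith) (by linarith) (by linarith) (by linarith) (by linarith) ((show t < 1 from H.d1).le) (by linarith) (hoA H e1 e2) (l1A H e1 e2) (l3A H e1 e2) k1.le k2.le).elim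
  · exact useA_203 H (Or.inl rfl) (Or.inr rfl) e1 e2 v1 v2 key.le

theorem A00_pm_213 : TriA 2 1 3 0 0 1 (-1) := by
  intro t t' H
  have hp := h0_pos
  obtain ⟨a1, a2⟩ := Q2.1 H.q1
  obtain ⟨b1, b2⟩ := Q1.1 H.q2
  obtain ⟨g1, g2⟩ := Q3.1 H.q3
  have e1 := pls (nd_02 H.q1)
  have v1 := pls (vl_02 H.q1 H.d1)
  have e2 := mns (nd_01 H.q2)
  have v2 := mns (vl_01 H.q2 H.d2)
  have key := LB.A0p0m_pm.fin213 (t := t) (t2 := t') (by linarith) (by linarith) (by linarith) (by linarith) (by linarith) (by linarith) ((show t < 1 from H.d1).le) (by linarith) (hoA H e1 e2) (l1A H e1 e2) (l3A H e1 e2)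
  rcases key with ⟨k1, k2⟩ | key
  · refine useA_213 H (Or.inl rfl) (Or.inr rfl) e1 e2 v1 v2 (LB.mir213_pm (fun _ _ => LB.ChA00V1_pm_123.tight123) _ _ (by linarith) (by linarith) (by linarith) (by linarith) (by linarith) (by linarith) ((show t < 1 from H.d1).le) (by linarith) (hoA H e1 e2) (l1A H e1 e2) (l3A H e1 e2) k1.le k2.le)
  · exact useA_213 H (Or.inl rfl) (Or.inr rfl) e1 e2 v1 v2 key.le

theorem A00_pm_303 : TriA 3 0 3 0 0 1 (-1) := fun _ _ H => (no_c1 H.q1 H.d1).elim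

theorem A00_pm_313 : TriA 3 1 3 0 0 1 (-1) := fun _ _ H => (no_c1 H.q1 H.d1).elim

theorem A00_mm_001 : TriA 0 0 1 0 0 (-1) (-1) := by
  intro t t' H
  have hp := h0_pos
  obtain ⟨a1, a2⟩ := Q0.1 H.q1
  obtain ⟨b1, b2⟩ := Q0.1 H.q2
  obtain ⟨g1, g2⟩ := Q1.1 H.q3
  have e1 := mns (nd_00 H.q1)
  have v1 := mns (vl_00 H.q1 H.d1)
  have e2 := mns (nd_00 H.q2)
  have v2 := mns (vl_00 H.q2 H.d2)
  have key := LB.A0m0m_mm.fin001 (t := t) (t2 := t') (by linarith) (by linarith) (by linarith) (by linarith) (by linarith) (by linarith) (by linarith) (hoA H e1 e2) (l1A H e1 e2) (l3A H e1 e2)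
  exact useA_001 H (Or.inr rfl) (Or.inr rfl) e1 e2 v1 v2 key.le

theorem A00_mm_011 : TriA 0 1 1 0 0 (-1) (-1) := by
  intro t t' H
  have hp := h0_pos
  obtain ⟨a1, a2⟩ := Q0.1 H.q1
  obtain ⟨b1, b2⟩ := Q1.1 H.q2
  obtain ⟨g1, g2⟩ := Q1.1 H.q3
  have e1 := mns (nd_00 H.q1)
  have v1 := mns (vl_00 H.q1 H.d1)
  have e2 := mns (nd_01 H.q2)
  have v2 := mns (vl_01 H.q2 H.d2)
  have key := LB.A0m0m_mm.fin011 (t := t) (t2 := t') (by linarith) (by linarith) (by linarith) (by linarith) (by linarith) (by linarith) (by linarith) (hoA H e1 e2) (l1A H e1 e2) (l3A H e1 e2)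
  exact useA_011 H (Or.inr rfl) (Or.inr rfl) e1 e2 v1 v2 key.le

theorem A00_mm_012 : TriA 0 1 2 0 0 (-1) (-1) := by
  intro t t' H
  have hp := h0_pos
  obtain ⟨a1, a2⟩ := Q0.1 H.q1
  obtain ⟨b1, b2⟩ := Q1.1 H.q2
  obtain ⟨g1, g2⟩ := Q2.1 H.q3
  have e1 := mns (nd_00 H.q1)
  have v1 := mns (vl_00 H.q1 H.d1)
  have e2 := mns (nd_01 H.q2)
  have v2 := mns (vl_01 H.q2 H.d2)
  have key := LB.A0m0m_mm.fin012 (t := t) (t2 := t') (by linarith) (by linarith) (by linarith) (by linarith) (by linarith) (by linarith) (by linarith) (hoA H e1 e2) (l1A H e1 e2) (l3A H e1 e2)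
  exact useA_012 H (Or.inr rfl) (Or.inr rfl) e1 e2 v1 v2 key.le

theorem A00_mm_022 : TriA 0 2 2 0 0 (-1) (-1) := by
  intro t t' H
  have hp := h0_pos
  obtain ⟨a1, a2⟩ := Q0.1 H.q1
  obtain ⟨b1, b2⟩ := Q2.1 H.q2
  obtain ⟨g1, g2⟩ := Q2.1 H.q3
  have e1 := mns (nd_00 H.q1)
  have v1 := mns (vl_00 H.q1 H.d1)
  have e2 := mns (nd_02 H.q2)
  have v2 := mns (vl_02 H.q2 H.d2)
  have key := LB.A0m0p_mm.fin022 (t := t) (t2 := t') (by linarith) (by linarith) (by linarith) (by linarith) (by linarith) (by linarith) ((show t' < 1 from H.d2).le) (by linarith) (hoA H e1 e2) (l1A H e1 e2) (l3A H e1 e2)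
  rcases key with ⟨k1, k2⟩ | key
  · exact (Emp.eA0m0p_mm_022 (t := t) (t2 := t') (by linarith) (by linarith) (by linarith) (by linarith) (by linarith) (by linarith) ((show t' < 1 from H.d2).le) (by linarith) (hoA H e1 e2) (l1A H e1 e2) (l3A H e1 e2) k1.le k2.le).elim
  · exact useA_022 H (Or.inr rfl) (Or.inr rfl) e1 e2 v1 v2 key.le

theorem A00_mm_023 : TriA 0 2 3 0 0 (-1) (-1) := by
  intro t t' H
  have hp := h0_pos
  obtain ⟨a1, a2⟩ := Q0.1 H.q1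
  obtain ⟨b1, b2⟩ := Q2.1 H.q2
  obtain ⟨g1, g2⟩ := Q3.1 H.q3
  have e1 := mns (nd_00 H.q1)
  have v1 := mns (vl_00 H.q1 H.d1)
  have e2 := mns (nd_02 H.q2)
  have v2 := mns (vl_02 H.q2 H.d2)
  have key := LB.A0m0p_mm.fin023 (t := t) (t2 := t') (by linarith) (by linarith) (by linarith) (by linarith) (by linarith) (by linarith) ((show t' < 1 from H.d2).le) (by linarith) (hoA H e1 e2) (l1A H e1 e2) (l3A H e1 e2)
  rcases key with ⟨k1, k2⟩ | key
  · exact (Emp.eA0m0p_mm_023 (t := t) (t2 := t') (by linarith) (by linarith) (by linarith) (by linarith) (by linarith) (by linarith) ((show t' < 1 from H.d2).le) (by linarith) (hoA H e1 e2) (l1A H e1 e2) (l3A H e1 e2) k1.le k2.le).elim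
  · exact useA_023 H (Or.inr rfl) (Or.inr rfl) e1 e2 v1 v2 key.le

theorem A00_mm_033 : TriA 0 3 3 0 0 (-1) (-1) := fun _ _ H => (no_c1 H.q2 H.d2).elim

theorem A00_mm_101 (c101 : CubeA 1 0 1 0 0 (-1) (-1)) : TriA 1 0 1 0 0 (-1) (-1) := by
  intro t t' H
  have hp := h0_pos
  obtain ⟨a1, a2⟩ := Q1.1 H.q1
  obtain ⟨b1, b2⟩ := Q0.1 H.q2
  obtain ⟨g1, g2⟩ := Q1.1 H.q3
  have e1 := mns (nd_01 H.q1)
  have v1 := mns (vl_01 H.q1 H.d1)
  have e2 := mns (nd_00 H.q2)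
  have v2 := mns (vl_00 H.q2 H.d2)
  have key := LB.A0m0m_mm.fin101 (t := t) (t2 := t') (by linarith) (by linarith) (by linarith) (by linarith) (by linarith) (by linarith) (by linarith) (hoA H e1 e2) (l1A H e1 e2) (l3A H e1 e2)
  rcases key with ⟨k1, k2, k3⟩ | key
  · refine c101 t t' H ?_
    simp only [Near, co, abs_lt]
    exact ⟨⟨by linarith, by linarith⟩, ⟨by linarith, by linarith⟩, ⟨by linarith, by linarith⟩⟩
  · exact useA_101 H (Or.inr rfl) (Or.inr rfl) e1 e2 v1 v2 key.le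

theorem A00_mm_102 (c102 : CubeA 1 0 2 0 0 (-1) (-1)) : TriA 1 0 2 0 0 (-1) (-1) := by
  intro t t' H
  have hp := h0_pos
  obtain ⟨a1, a2⟩ := Q1.1 H.q1
  obtain ⟨b1, b2⟩ := Q0.1 H.q2
  obtain ⟨g1, g2⟩ := Q2.1 H.q3
  have e1 := mns (nd_01 H.q1)
  have v1 := mns (vl_01 H.q1 H.d1)
  have e2 := mns (nd_00 H.q2)
  have v2 := mns (vl_00 H.q2 H.d2)
  have key := LB.A0m0m_mm.fin102 (t := t) (t2 := t') (by linarith) (by linarith) (by linarith) (by linarith) (by linarith) (by linarith) (by linarith) (hoA H e1 e2) (l1A H e1 e2) (l3A H e1 e2)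
  rcases key with ⟨k1, k2, k3⟩ | key
  · refine c102 t t' H ?_
    simp only [Near, co, abs_lt]
    exact ⟨⟨by linarith, by linarith⟩, ⟨by linarith, by linarith⟩, ⟨by linarith, by linarith⟩⟩
  · exact useA_102 H (Or.inr rfl) (Or.inr rfl) e1 e2 v1 v2 key.le

theorem A00_mm_112 : TriA 1 1 2 0 0 (-1) (-1) := by
  intro t t' H
  have hp := h0_pos
  obtain ⟨a1, a2⟩ := Q1.1 H.q1
  obtain ⟨b1, b2⟩ := Q1.1 H.q2
  obtain ⟨g1, g2⟩ := Q2.1 H.q3
  have e1 := mns (nd_01 H.q1)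
  have v1 := mns (vl_01 H.q1 H.d1)
  have e2 := mns (nd_01 H.q2)
  have v2 := mns (vl_01 H.q2 H.d2)
  have key := LB.A0m0m_mm.fin112 (t := t) (t2 := t') (by linarith) (by linarith) (by linarith) (by linarith) (by linarith) (by linarith) (by linarith) (hoA H e1 e2) (l1A H e1 e2) (l3A H e1 e2)
  exact useA_112 H (Or.inr rfl) (Or.inr rfl) e1 e2 v1 v2 key.le

theorem A00_mm_113 : TriA 1 1 3 0 0 (-1) (-1) := by
  intro t t' H
  have hp := h0_pos
  obtain ⟨a1, a2⟩ := Q1.1 H.q1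
  obtain ⟨b1, b2⟩ := Q1.1 H.q2
  obtain ⟨g1, g2⟩ := Q3.1 H.q3
  have e1 := mns (nd_01 H.q1)
  have v1 := mns (vl_01 H.q1 H.d1)
  have e2 := mns (nd_01 H.q2)
  have v2 := mns (vl_01 H.q2 H.d2)
  have key := LB.A0m0m_mm.fin113 (t := t) (t2 := t') (by linarith) (by linarith) (by linarith) (by linarith) (by linarith) (by linarith) (by linarith) (hoA H e1 e2) (l1A H e1 e2) (l3A H e1 e2)
  exact useA_113 H (Or.inr rfl) (Or.inr rfl) e1 e2 v1 v2 key.le

theorem A00_mm_123 : TriA 1 2 3 0 0 (-1) (-1) := by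
  intro t t' H
  have hp := h0_pos
  obtain ⟨a1, a2⟩ := Q1.1 H.q1
  obtain ⟨b1, b2⟩ := Q2.1 H.q2
  obtain ⟨g1, g2⟩ := Q3.1 H.q3
  have e1 := mns (nd_01 H.q1)
  have v1 := mns (vl_01 H.q1 H.d1)
  have e2 := mns (nd_02 H.q2)
  have v2 := mns (vl_02 H.q2 H.d2)
  have key := LB.A0m0p_mm.fin123 (t := t) (t2 := t') (by linarith) (by linarith) (by linarith) (by linarith) (by linarith) (by linarith) ((show t' < 1 from H.d2).le) (by linarith) (hoA H e1 e2) (l1A H e1 e2) (l3A H e1 e2)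
  rcases key with ⟨k1, k2⟩ | key
  · exact (Emp.eA0m0p_mm_123 (t := t) (t2 := t') (by linarith) (by linarith) (by linarith) (by linarith) (by linarith) (by linarith) ((show t' < 1 from H.d2).le) (by linarith) (hoA H e1 e2) (l1A H e1 e2) (l3A H e1 e2) k1.le k2.le).elim
  · exact useA_123 H (Or.inr rfl) (Or.inr rfl) e1 e2 v1 v2 key.le

theorem A00_mm_133 : TriA 1 3 3 0 0 (-1) (-1) := fun _ _ H => (no_c1 H.q2 H.d2).elim

theorem A00_mm_202 : TriA 2 0 2 0 0 (-1) (-1) := by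
  intro t t' H
  have hp := h0_pos
  obtain ⟨a1, a2⟩ := Q2.1 H.q1
  obtain ⟨b1, b2⟩ := Q0.1 H.q2
  obtain ⟨g1, g2⟩ := Q2.1 H.q3
  have e1 := mns (nd_02 H.q1)
  have v1 := mns (vl_02 H.q1 H.d1)
  have e2 := mns (nd_00 H.q2)
  have v2 := mns (vl_00 H.q2 H.d2)
  have key := LB.A0p0m_mm.fin202 (t := t) (t2 := t') (by linarith) (by linarith) (by linarith) (by linarith) (by linarith) (by linarith) ((show t < 1 from H.d1).le) (by linarith) (hoA H e1 e2) (l1A H e1 e2) (l3A H e1 e2)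
  rcases key with ⟨k1, k2⟩ | key
  · refine useA_202 H (Or.inr rfl) (Or.inr rfl) e1 e2 v1 v2 (LB.mir202_mm (fun _ _ => LB.ChA00V1_pp_022.tight022) _ _ (by linarith) (by linarith) (by linarith) (by linarith) (by linarith) (by linarith) ((show t < 1 from H.d1).le) (by linarith) (hoA H e1 e2) (l1A H e1 e2) (l3A H e1 e2) k1.le k2.le)
  · exact useA_202 H (Or.inr rfl) (Or.inr rfl) e1 e2 v1 v2 key.le

theorem A00_mm_203 : TriA 2 0 3 0 0 (-1) (-1) := by
  intro t t' H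
  have hp := h0_pos
  obtain ⟨a1, a2⟩ := Q2.1 H.q1
  obtain ⟨b1, b2⟩ := Q0.1 H.q2
  obtain ⟨g1, g2⟩ := Q3.1 H.q3
  have e1 := mns (nd_02 H.q1)
  have v1 := mns (vl_02 H.q1 H.d1)
  have e2 := mns (nd_00 H.q2)
  have v2 := mns (vl_00 H.q2 H.d2)
  have key := LB.A0p0m_mm.fin203 (t := t) (t2 := t') (by linarith) (by linarith) (by linarith) (by linarith) (by linarith) (by linarith) ((show t < 1 from H.d1).le) (by linarith) (hoA H e1 e2) (l1A H e1 e2) (l3A H e1 e2)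
  rcases key with ⟨k1, k2⟩ | key
  · refine useA_203 H (Or.inr rfl) (Or.inr rfl) e1 e2 v1 v2 (LB.mir203_mm (fun _ _ => LB.ChA00V1_pp_023.tight023) _ _ (by linarith) (by linarith) (by linarith) (by linarith) (by linarith) (by linarith) ((show t < 1 from H.d1).le) (by linarith) (hoA H e1 e2) (l1A H e1 e2) (l3A H e1 e2) k1.le k2.le)
  · exact useA_203 H (Or.inr rfl) (Or.inr rfl) e1 e2 v1 v2 key.le

theorem A00_mm_213 : TriA 2 1 3 0 0 (-1) (-1) := by
  intro t t' H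
  have hp := h0_pos
  obtain ⟨a1, a2⟩ := Q2.1 H.q1
  obtain ⟨b1, b2⟩ := Q1.1 H.q2
  obtain ⟨g1, g2⟩ := Q3.1 H.q3
  have e1 := mns (nd_02 H.q1)
  have v1 := mns (vl_02 H.q1 H.d1)
  have e2 := mns (nd_01 H.q2)
  have v2 := mns (vl_01 H.q2 H.d2)
  have key := LB.A0p0m_mm.fin213 (t := t) (t2 := t') (by linarith) (by linarith) (by linarith) (by linarith) (by linarith) (by linarith) ((show t < 1 from H.d1).le) (by linarith) (hoA H e1 e2) (l1A H e1 e2) (l3A H e1 e2)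
  rcases key with ⟨k1, k2⟩ | key
  · refine useA_213 H (Or.inr rfl) (Or.inr rfl) e1 e2 v1 v2 (LB.mir213_mm (fun _ _ => LB.ChA00V1_pp_123.tight123) _ _ (by linarith) (by linarith) (by linarith) (by linarith) (by linarith) (by linarith) ((show t < 1 from H.d1).le) (by linarith) (hoA H e1 e2) (l1A H e1 e2) (l3A H e1 e2) k1.le k2.le)
  · exact useA_213 H (Or.inr rfl) (Or.inr rfl) e1 e2 v1 v2 key.le

theorem A00_mm_303 : TriA 3 0 3 0 0 (-1) (-1) := fun _ _ H => (no_c1 H.q1 H.d1).elim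

theorem A00_mm_313 : TriA 3 1 3 0 0 (-1) (-1) := fun _ _ H => (no_c1 H.q1 H.d1).elim

theorem A00_pp 
    (c011 : CubeA 0 1 1 0 0 1 1)
    (c012 : CubeA 0 1 2 0 0 1 1) :
    FamWA PF 0 0 1 1 := by
  refine AllTriA.fam (Or.inl rfl) (Or.inl rfl) ⟨A00_pp_001, A00_pp_011 c011, A00_pp_012 c012, A00_pp_022, A00_pp_023, A00_pp_033, A00_pp_101, A00_pp_102, A00_pp_112, A00_pp_113, A00_pp_123, A00_pp_133, A00_pp_202, A00_pp_203, A00_pp_213, A00_pp_303, A00_pp_313⟩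

theorem A00_pm 
    (c011 : CubeA 0 1 1 0 0 1 (-1))
    (c022 : CubeA 0 2 2 0 0 1 (-1))
    (c101 : CubeA 1 0 1 0 0 1 (-1))
    (c113 : CubeA 1 1 3 0 0 1 (-1))
    (c202 : CubeA 2 0 2 0 0 1 (-1)) :
    FamWA PF 0 0 1 (-1) := by
  refine AllTriA.fam (Or.inl rfl) (Or.inr rfl) ⟨A00_pm_001, A00_pm_011 c011, A00_pm_012, A00_pm_022 c022, A00_pm_023, A00_pm_033, A00_pm_101 c101, A00_pm_102, A00_pm_112, A00_pm_113 c113, A00_pm_123, A00_pm_133, A00_pm_202 c202, A00_pm_203, A00_pm_213, A00_pm_303, A00_pm_313⟩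

theorem A00_mm 
    (c101 : CubeA 1 0 1 0 0 (-1) (-1))
    (c102 : CubeA 1 0 2 0 0 (-1) (-1)) :
    FamWA PF 0 0 (-1) (-1) := by
  refine AllTriA.fam (Or.inr rfl) (Or.inr rfl) ⟨A00_mm_001, A00_mm_011, A00_mm_012, A00_mm_022, A00_mm_023, A00_mm_033, A00_mm_101 c101, A00_mm_102 c102, A00_mm_112, A00_mm_113, A00_mm_123, A00_mm_133, A00_mm_202, A00_mm_203, A00_mm_213, A00_mm_303, A00_mm_313⟩

end Pool.Agent.Strip051.LC.Line.Glue
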