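import Pool.Agent.Strip051.LB.A2m2m_mm
import Pool.Agent.Strip051.LB.A2m2m_pm
import Pool.Agent.Strip051.LB.A2m2m_pp
import Pool.Agent.Strip051.LB.A2m2p_mm
import Pool.Agent.Strip051.LB.A2m2p_pm
import Pool.Agent.Strip051.LB.A2m2p_pp
import Pool.Agent.Strip051.LB.A2p2m_mm
import Pool.Agent.Strip051.LB.A2p2m_pm
import Pool.Agent.Strip051.LB.A2p2m_pp
import Pool.Agent.Strip051.LC.Line.GlueA

/-! # The family A, curves 2 and 2 -/

namespace Pool.Agent.Strip051.LC.Line.Glue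

open Pool.Agent.StripNear Pool.Agent.StripSquare Pool.Agent.Strip051.Sweep
  Pool.Agent.Strip051.LC Pool.Agent.Strip051.LC.Line Pool.Agent.Strip051.LB.Fn Pool.Agent.Strip051

theorem A22_pp_001 : TriA 0 0 1 2 2 1 1 := by
  intro t t' H
  have hp := h0_pos
  obtain ⟨a1, a2⟩ := Q0.1 H.q1
  obtain ⟨b1, b2⟩ := Q0.1 H.q2
  obtain ⟨g1, g2⟩ := Q1.1 H.q3
  have e1 := pls (nd_20 H.q1)
  have v1 := pls (vl_20 H.q1)
  have e2 := pls (nd_20 H.q2)
  have v2 := pls (vl_20 H.q2)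
  have key := LB.A2m2m_pp.fin001 (t := t) (t2 := t') (by linarith) (by linarith) (by linarith) (by linarith) (by linarith) (by linarith) (by linarith) (hoA H e1 e2) (l1A H e1 e2) (l3A H e1 e2)
  exact useA_001 H (Or.inl rfl) (Or.inl rfl) e1 e2 v1 v2 key.le

theorem A22_pp_011 : TriA 0 1 1 2 2 1 1 := by
  intro t t' H
  have hp := h0_pos
  obtain ⟨a1, a2⟩ := Q0.1 H.q1
  obtain ⟨b1, b2⟩ := Q1.1 H.q2
  obtain ⟨g1, g2⟩ := Q1.1 H.q3
  have e1 := pls (nd_20 H.q1)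
  have v1 := pls (vl_20 H.q1)
  have e2 := pls (nd_21 H.q2)
  have v2 := pls (vl_21 H.q2)
  have key := LB.A2m2m_pp.fin011 (t := t) (t2 := t') (by linarith) (by linarith) (by linarith) (by linarith) (by linarith) (by linarith) (by linarith) (hoA H e1 e2) (l1A H e1 e2) (l3A H e1 e2)
  exact useA_011 H (Or.inl rfl) (Or.inl rfl) e1 e2 v1 v2 key.le

theorem A22_pp_012 : TriA 0 1 2 2 2 1 1 := by
  intro t t' H
  have hp := h0_pos
  obtain ⟨a1, a2⟩ := Q0.1 H.q1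
  obtain ⟨b1, b2⟩ := Q1.1 H.q2
  obtain ⟨g1, g2⟩ := Q2.1 H.q3
  have e1 := pls (nd_20 H.q1)
  have v1 := pls (vl_20 H.q1)
  have e2 := pls (nd_21 H.q2)
  have v2 := pls (vl_21 H.q2)
  have key := LB.A2m2m_pp.fin012 (t := t) (t2 := t') (by linarith) (by linarith) (by linarith) (by linarith) (by linarith) (by linarith) (by linarith) (hoA H e1 e2) (l1A H e1 e2) (l3A H e1 e2)
  exact useA_012 H (Or.inl rfl) (Or.inl rfl) e1 e2 v1 v2 key.le

theorem A22_pp_022 : TriA 0 2 2 2 2 1 1 := by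
  intro t t' H
  have hp := h0_pos
  obtain ⟨a1, a2⟩ := Q0.1 H.q1
  obtain ⟨b1, b2⟩ := Q2.1 H.q2
  obtain ⟨g1, g2⟩ := Q2.1 H.q3
  have e1 := pls (nd_20 H.q1)
  have v1 := pls (vl_20 H.q1)
  have e2 := pls (nd_22 H.q2)
  have v2 := pls (vl_22 H.q2)
  have key := LB.A2m2p_pp.fin022 (t := t) (t2 := t') (by linarith) (by linarith) (by linarith) (by linarith) (by linarith) (by linarith) (by linarith) (hoA H e1 e2) (l1A H e1 e2) (l3A H e1 e2)
  exact useA_022 H (Or.inl rfl) (Or.inl rfl) e1 e2 v1 v2 key.le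

theorem A22_pp_023 : TriA 0 2 3 2 2 1 1 := by
  intro t t' H
  have hp := h0_pos
  obtain ⟨a1, a2⟩ := Q0.1 H.q1
  obtain ⟨b1, b2⟩ := Q2.1 H.q2
  obtain ⟨g1, g2⟩ := Q3.1 H.q3
  have e1 := pls (nd_20 H.q1)
  have v1 := pls (vl_20 H.q1)
  have e2 := pls (nd_22 H.q2)
  have v2 := pls (vl_22 H.q2)
  have key := LB.A2m2p_pp.fin023 (t := t) (t2 := t') (by linarith) (by linarith) (by linarith) (by linarith) (by linarith) (by linarith) (by linarith) (hoA H e1 e2) (l1A H e1 e2) (l3A H e1 e2)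
  exact useA_023 H (Or.inl rfl) (Or.inl rfl) e1 e2 v1 v2 key.le

theorem A22_pp_033 : TriA 0 3 3 2 2 1 1 := by
  intro t t' H
  have hp := h0_pos
  obtain ⟨a1, a2⟩ := Q0.1 H.q1
  obtain ⟨b1, b2⟩ := Q3.1 H.q2
  obtain ⟨g1, g2⟩ := Q3.1 H.q3
  have e1 := pls (nd_20 H.q1)
  have v1 := pls (vl_20 H.q1)
  have e2 := pls (nd_23 H.q2)
  have v2 := pls (vl_23 H.q2)
  have key := LB.A2m2p_pp.fin033 (t := t) (t2 := t') (by linarith) (by linarith) (by linarith) (by linarith) (by linarith) (by linarith) (by linarith) (hoA H e1 e2) (l1A H e1 e2) (l3A H e1 e2)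
  exact useA_033 H (Or.inl rfl) (Or.inl rfl) e1 e2 v1 v2 key.le

theorem A22_pp_101 : TriA 1 0 1 2 2 1 1 := by
  intro t t' H
  have hp := h0_pos
  obtain ⟨a1, a2⟩ := Q1.1 H.q1
  obtain ⟨b1, b2⟩ := Q0.1 H.q2
  obtain ⟨g1, g2⟩ := Q1.1 H.q3
  have e1 := pls (nd_21 H.q1)
  have v1 := pls (vl_21 H.q1)
  have e2 := pls (nd_20 H.q2)
  have v2 := pls (vl_20 H.q2)
  have key := LB.A2m2m_pp.fin101 (t := t) (t2 := t') (by linarith) (by linarith) (by linarith) (by linarith) (by linarith) (by linarith) (by linarith) (hoA H e1 e2) (l1A H e1 e2) (l3A H e1 e2)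
  exact useA_101 H (Or.inl rfl) (Or.inl rfl) e1 e2 v1 v2 key.le

theorem A22_pp_102 : TriA 1 0 2 2 2 1 1 := by
  intro t t' H
  have hp := h0_pos
  obtain ⟨a1, a2⟩ := Q1.1 H.q1
  obtain ⟨b1, b2⟩ := Q0.1 H.q2
  obtain ⟨g1, g2⟩ := Q2.1 H.q3
  have e1 := pls (nd_21 H.q1)
  have v1 := pls (vl_21 H.q1)
  have e2 := pls (nd_20 H.q2)
  have v2 := pls (vl_20 H.q2)
  have key := LB.A2m2m_pp.fin102 (t := t) (t2 := t') (by linarith) (by linarith) (by linarith) (by linarith) (by linarith) (by linarith) (by linarith) (hoA H e1 e2) (l1A H e1 e2) (l3A H e1 e2)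
  exact useA_102 H (Or.inl rfl) (Or.inl rfl) e1 e2 v1 v2 key.le

theorem A22_pp_112 : TriA 1 1 2 2 2 1 1 := by
  intro t t' H
  have hp := h0_pos
  obtain ⟨a1, a2⟩ := Q1.1 H.q1
  obtain ⟨b1, b2⟩ := Q1.1 H.q2
  obtain ⟨g1, g2⟩ := Q2.1 H.q3
  have e1 := pls (nd_21 H.q1)
  have v1 := pls (vl_21 H.q1)
  have e2 := pls (nd_21 H.q2)
  have v2 := pls (vl_21 H.q2)
  have key := LB.A2m2m_pp.fin112 (t := t) (t2 := t') (by linarith) (by linarith) (by linarith) (by linarith) (by linarith) (by linarith) (by linarith) (hoA H e1 e2) (l1A H e1 e2) (l3A H e1 e2)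
  exact useA_112 H (Or.inl rfl) (Or.inl rfl) e1 e2 v1 v2 key.le

theorem A22_pp_113 : TriA 1 1 3 2 2 1 1 := by
  intro t t' H
  have hp := h0_pos
  obtain ⟨a1, a2⟩ := Q1.1 H.q1
  obtain ⟨b1, b2⟩ := Q1.1 H.q2
  obtain ⟨g1, g2⟩ := Q3.1 H.q3
  have e1 := pls (nd_21 H.q1)
  have v1 := pls (vl_21 H.q1)
  have e2 := pls (nd_21 H.q2)
  have v2 := pls (vl_21 H.q2)
  have key := LB.A2m2m_pp.fin113 (t := t) (t2 := t') (by linarith) (by linarith) (by linarith) (by linarith) (by linarith) (by linarith) (by linarith) (hoA H e1 e2) (l1A H e1 e2) (l3A H e1 e2)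
  exact useA_113 H (Or.inl rfl) (Or.inl rfl) e1 e2 v1 v2 key.le

theorem A22_pp_123 : TriA 1 2 3 2 2 1 1 := by
  intro t t' H
  have hp := h0_pos
  obtain ⟨a1, a2⟩ := Q1.1 H.q1
  obtain ⟨b1, b2⟩ := Q2.1 H.q2
  obtain ⟨g1, g2⟩ := Q3.1 H.q3
  have e1 := pls (nd_21 H.q1)
  have v1 := pls (vl_21 H.q1)
  have e2 := pls (nd_22 H.q2)
  have v2 := pls (vl_22 H.q2)
  have key := LB.A2m2p_pp.fin123 (t := t) (t2 := t') (by linarith) (by linarith) (by linarith) (by linarith) (by linarith) (by linarith) (by linarith) (hoA H e1 e2) (l1A H e1 e2) (l3A H e1 e2)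
  exact useA_123 H (Or.inl rfl) (Or.inl rfl) e1 e2 v1 v2 key.le

theorem A22_pp_133 : TriA 1 3 3 2 2 1 1 := by
  intro t t' H
  have hp := h0_pos
  obtain ⟨a1, a2⟩ := Q1.1 H.q1
  obtain ⟨b1, b2⟩ := Q3.1 H.q2
  obtain ⟨g1, g2⟩ := Q3.1 H.q3
  have e1 := pls (nd_21 H.q1)
  have v1 := pls (vl_21 H.q1)
  have e2 := pls (nd_23 H.q2)
  have v2 := pls (vl_23 H.q2)
  have key := LB.A2m2p_pp.fin133 (t := t) (t2 := t') (by linarith) (by linarith) (by linarith) (by linarith) (by linarith) (by linarith) (by linarith) (hoA H e1 e2) (l1A H e1 e2) (l3A H e1 e2)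
  exact useA_133 H (Or.inl rfl) (Or.inl rfl) e1 e2 v1 v2 key.le

theorem A22_pp_202 : TriA 2 0 2 2 2 1 1 := by
  intro t t' H
  have hp := h0_pos
  obtain ⟨a1, a2⟩ := Q2.1 H.q1
  obtain ⟨b1, b2⟩ := Q0.1 H.q2
  obtain ⟨g1, g2⟩ := Q2.1 H.q3
  have e1 := pls (nd_22 H.q1)
  have v1 := pls (vl_22 H.q1)
  have e2 := pls (nd_20 H.q2)
  have v2 := pls (vl_20 H.q2)
  have key := LB.A2p2m_pp.fin202 (t := t) (t2 := t') (by linarith) (by linarith) (by linarith) (by linarith) (by linarith) (by linarith) (by linarith) (hoA H e1 e2) (l1A H e1 e2) (l3A H e1 e2)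
  exact useA_202 H (Or.inl rfl) (Or.inl rfl) e1 e2 v1 v2 key.le

theorem A22_pp_203 : TriA 2 0 3 2 2 1 1 := by
  intro t t' H
  have hp := h0_pos
  obtain ⟨a1, a2⟩ := Q2.1 H.q1
  obtain ⟨b1, b2⟩ := Q0.1 H.q2
  obtain ⟨g1, g2⟩ := Q3.1 H.q3
  have e1 := pls (nd_22 H.q1)
  have v1 := pls (vl_22 H.q1)
  have e2 := pls (nd_20 H.q2)
  have v2 := pls (vl_20 H.q2)
  have key := LB.A2p2m_pp.fin203 (t := t) (t2 := t') (by linarith) (by linarith) (by linarith) (by linarith) (by linarith) (by linarith) (by linarith) (hoA H e1 e2) (l1A H e1 e2) (l3A H e1 e2)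
  exact useA_203 H (Or.inl rfl) (Or.inl rfl) e1 e2 v1 v2 key.le

theorem A22_pp_213 : TriA 2 1 3 2 2 1 1 := by
  intro t t' H
  have hp := h0_pos
  obtain ⟨a1, a2⟩ := Q2.1 H.q1
  obtain ⟨b1, b2⟩ := Q1.1 H.q2
  obtain ⟨g1, g2⟩ := Q3.1 H.q3
  have e1 := pls (nd_22 H.q1)
  have v1 := pls (vl_22 H.q1)
  have e2 := pls (nd_21 H.q2)
  have v2 := pls (vl_21 H.q2)
  have key := LB.A2p2m_pp.fin213 (t := t) (t2 := t') (by linarith) (by linarith) (by linarith) (by linarith) (by linarith) (by linarith) (by linarith) (hoA H e1 e2) (l1A H e1 e2) (l3A H e1 e2)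
  exact useA_213 H (Or.inl rfl) (Or.inl rfl) e1 e2 v1 v2 key.le

theorem A22_pp_303 : TriA 3 0 3 2 2 1 1 := by
  intro t t' H
  have hp := h0_pos
  obtain ⟨a1, a2⟩ := Q3.1 H.q1
  obtain ⟨b1, b2⟩ := Q0.1 H.q2
  obtain ⟨g1, g2⟩ := Q3.1 H.q3
  have e1 := pls (nd_23 H.q1)
  have v1 := pls (vl_23 H.q1)
  have e2 := pls (nd_20 H.q2)
  have v2 := pls (vl_20 H.q2)
  have key := LB.A2p2m_pp.fin303 (t := t) (t2 := t') (by linarith) (by linarith) (by linarith) (by linarith) (by linarith) (by linarith) (by linarith) (hoA H e1 e2) (l1A H e1 e2) (l3A H e1 e2)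
  exact useA_303 H (Or.inl rfl) (Or.inl rfl) e1 e2 v1 v2 key.le

theorem A22_pp_313 : TriA 3 1 3 2 2 1 1 := by
  intro t t' H
  have hp := h0_pos
  obtain ⟨a1, a2⟩ := Q3.1 H.q1
  obtain ⟨b1, b2⟩ := Q1.1 H.q2
  obtain ⟨g1, g2⟩ := Q3.1 H.q3
  have e1 := pls (nd_23 H.q1)
  have v1 := pls (vl_23 H.q1)
  have e2 := pls (nd_21 H.q2)
  have v2 := pls (vl_21 H.q2)
  have key := LB.A2p2m_pp.fin313 (t := t) (t2 := t') (by linarith) (by linarith) (by linarith) (by linarith) (by linarith) (by linarith) (by linarith) (hoA H e1 e2) (l1A H e1 e2) (l3A H e1 e2)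
  exact useA_313 H (Or.inl rfl) (Or.inl rfl) e1 e2 v1 v2 key.le

theorem A22_pm_001 : TriA 0 0 1 2 2 1 (-1) := by
  intro t t' H
  have hp := h0_pos
  obtain ⟨a1, a2⟩ := Q0.1 H.q1
  obtain ⟨b1, b2⟩ := Q0.1 H.q2
  obtain ⟨g1, g2⟩ := Q1.1 H.q3
  have e1 := pls (nd_20 H.q1)
  have v1 := pls (vl_20 H.q1)
  have e2 := mns (nd_20 H.q2)
  have v2 := mns (vl_20 H.q2)
  have key := LB.A2m2m_pm.fin001 (t := t) (t2 := t') (by linarith) (by linarith) (by linarith) (by linarith) (by linarith) (by linarith) (by linarith) (hoA H e1 e2) (l1A H e1 e2) (l3A H e1 e2)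
  exact useA_001 H (Or.inl rfl) (Or.inr rfl) e1 e2 v1 v2 key.le

theorem A22_pm_011 : TriA 0 1 1 2 2 1 (-1) := by
  intro t t' H
  have hp := h0_pos
  obtain ⟨a1, a2⟩ := Q0.1 H.q1
  obtain ⟨b1, b2⟩ := Q1.1 H.q2
  obtain ⟨g1, g2⟩ := Q1.1 H.q3
  have e1 := pls (nd_20 H.q1)
  have v1 := pls (vl_20 H.q1)
  have e2 := mns (nd_21 H.q2)
  have v2 := mns (vl_21 H.q2)
  have key := LB.A2m2m_pm.fin011 (t := t) (t2 := t') (by linarith) (by linarith) (by linarith) (by linarith) (by linarith) (by linarith) (by linarith) (hoA H e1 e2) (l1A H e1 e2) (l3A H e1 e2)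
  exact useA_011 H (Or.inl rfl) (Or.inr rfl) e1 e2 v1 v2 key.le

theorem A22_pm_012 : TriA 0 1 2 2 2 1 (-1) := by
  intro t t' H
  have hp := h0_pos
  obtain ⟨a1, a2⟩ := Q0.1 H.q1
  obtain ⟨b1, b2⟩ := Q1.1 H.q2
  obtain ⟨g1, g2⟩ := Q2.1 H.q3
  have e1 := pls (nd_20 H.q1)
  have v1 := pls (vl_20 H.q1)
  have e2 := mns (nd_21 H.q2)
  have v2 := mns (vl_21 H.q2)
  have key := LB.A2m2m_pm.fin012 (t := t) (t2 := t') (by linarith) (by linarith) (by linarith) (by linarith) (by linarith) (by linarith) (by linarith) (hoA H e1 e2) (l1A H e1 e2) (l3A H e1 e2)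
  exact useA_012 H (Or.inl rfl) (Or.inr rfl) e1 e2 v1 v2 key.le

theorem A22_pm_022 : TriA 0 2 2 2 2 1 (-1) := by
  intro t t' H
  have hp := h0_pos
  obtain ⟨a1, a2⟩ := Q0.1 H.q1
  obtain ⟨b1, b2⟩ := Q2.1 H.q2
  obtain ⟨g1, g2⟩ := Q2.1 H.q3
  have e1 := pls (nd_20 H.q1)
  have v1 := pls (vl_20 H.q1)
  have e2 := mns (nd_22 H.q2)
  have v2 := mns (vl_22 H.q2)
  have key := LB.A2m2p_pm.fin022 (t := t) (t2 := t') (by linarith) (by linarith) (by linarith) (by linarith) (by linarith) (by linarith) (by linarith) (hoA H e1 e2) (l1A H e1 e2) (l3A H e1 e2)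
  exact useA_022 H (Or.inl rfl) (Or.inr rfl) e1 e2 v1 v2 key.le

theorem A22_pm_023 : TriA 0 2 3 2 2 1 (-1) := by
  intro t t' H
  have hp := h0_pos
  obtain ⟨a1, a2⟩ := Q0.1 H.q1
  obtain ⟨b1, b2⟩ := Q2.1 H.q2
  obtain ⟨g1, g2⟩ := Q3.1 H.q3
  have e1 := pls (nd_20 H.q1)
  have v1 := pls (vl_20 H.q1)
  have e2 := mns (nd_22 H.q2)
  have v2 := mns (vl_22 H.q2)
  have key := LB.A2m2p_pm.fin023 (t := t) (t2 := t') (by linarith) (by linarith) (by linarith) (by linarith) (by linarith) (by linarith) (by linarith) (hoA H e1 e2) (l1A H e1 e2) (l3A H e1 e2)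
  exact useA_023 H (Or.inl rfl) (Or.inr rfl) e1 e2 v1 v2 key.le

theorem A22_pm_033 : TriA 0 3 3 2 2 1 (-1) := by
  intro t t' H
  have hp := h0_pos
  obtain ⟨a1, a2⟩ := Q0.1 H.q1
  obtain ⟨b1, b2⟩ := Q3.1 H.q2
  obtain ⟨g1, g2⟩ := Q3.1 H.q3
  have e1 := pls (nd_20 H.q1)
  have v1 := pls (vl_20 H.q1)
  have e2 := mns (nd_23 H.q2)
  have v2 := mns (vl_23 H.q2)
  have key := LB.A2m2p_pm.fin033 (t := t) (t2 := t') (by linarith) (by linarith) (by linarith) (by linarith) (by linarith) (by linarith) (by linarith) (hoA H e1 e2) (l1A H e1 e2) (l3A H e1 e2)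
  exact useA_033 H (Or.inl rfl) (Or.inr rfl) e1 e2 v1 v2 key.le

theorem A22_pm_101 : TriA 1 0 1 2 2 1 (-1) := by
  intro t t' H
  have hp := h0_pos
  obtain ⟨a1, a2⟩ := Q1.1 H.q1
  obtain ⟨b1, b2⟩ := Q0.1 H.q2
  obtain ⟨g1, g2⟩ := Q1.1 H.q3
  have e1 := pls (nd_21 H.q1)
  have v1 := pls (vl_21 H.q1)
  have e2 := mns (nd_20 H.q2)
  have v2 := mns (vl_20 H.q2)
  have key := LB.A2m2m_pm.fin101 (t := t) (t2 := t') (by linarith) (by linarith) (by linarith) (by linarith) (by linarith) (by linarith) (by linarith) (hoA H e1 e2) (l1A H e1 e2) (l3A H e1 e2)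
  exact useA_101 H (Or.inl rfl) (Or.inr rfl) e1 e2 v1 v2 key.le

theorem A22_pm_102 : TriA 1 0 2 2 2 1 (-1) := by
  intro t t' H
  have hp := h0_pos
  obtain ⟨a1, a2⟩ := Q1.1 H.q1
  obtain ⟨b1, b2⟩ := Q0.1 H.q2
  obtain ⟨g1, g2⟩ := Q2.1 H.q3
  have e1 := pls (nd_21 H.q1)
  have v1 := pls (vl_21 H.q1)
  have e2 := mns (nd_20 H.q2)
  have v2 := mns (vl_20 H.q2)
  have key := LB.A2m2m_pm.fin102 (t := t) (t2 := t') (by linarith) (by linarith) (by linarith) (by linarith) (by linarith) (by linarith) (by linarith) (hoA H e1 e2) (l1A H e1 e2) (l3A H e1 e2)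
  exact useA_102 H (Or.inl rfl) (Or.inr rfl) e1 e2 v1 v2 key.le

theorem A22_pm_112 : TriA 1 1 2 2 2 1 (-1) := by
  intro t t' H
  have hp := h0_pos
  obtain ⟨a1, a2⟩ := Q1.1 H.q1
  obtain ⟨b1, b2⟩ := Q1.1 H.q2
  obtain ⟨g1, g2⟩ := Q2.1 H.q3
  have e1 := pls (nd_21 H.q1)
  have v1 := pls (vl_21 H.q1)
  have e2 := mns (nd_21 H.q2)
  have v2 := mns (vl_21 H.q2)
  have key := LB.A2m2m_pm.fin112 (t := t) (t2 := t') (by linarith) (by linarith) (by linarith) (by linarith) (by linarith) (by linarith) (by linarith) (hoA H e1 e2) (l1A H e1 e2) (l3A H e1 e2)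
  exact useA_112 H (Or.inl rfl) (Or.inr rfl) e1 e2 v1 v2 key.le

theorem A22_pm_113 : TriA 1 1 3 2 2 1 (-1) := by
  intro t t' H
  have hp := h0_pos
  obtain ⟨a1, a2⟩ := Q1.1 H.q1
  obtain ⟨b1, b2⟩ := Q1.1 H.q2
  obtain ⟨g1, g2⟩ := Q3.1 H.q3
  have e1 := pls (nd_21 H.q1)
  have v1 := pls (vl_21 H.q1)
  have e2 := mns (nd_21 H.q2)
  have v2 := mns (vl_21 H.q2)
  have key := LB.A2m2m_pm.fin113 (t := t) (t2 := t') (by linarith) (by linarith) (by linarith) (by linarith) (by linarith) (by linarith) (by linarith) (hoA H e1 e2) (l1A H e1 e2) (l3A H e1 e2)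
  exact useA_113 H (Or.inl rfl) (Or.inr rfl) e1 e2 v1 v2 key.le

theorem A22_pm_123 : TriA 1 2 3 2 2 1 (-1) := by
  intro t t' H
  have hp := h0_pos
  obtain ⟨a1, a2⟩ := Q1.1 H.q1
  obtain ⟨b1, b2⟩ := Q2.1 H.q2
  obtain ⟨g1, g2⟩ := Q3.1 H.q3
  have e1 := pls (nd_21 H.q1)
  have v1 := pls (vl_21 H.q1)
  have e2 := mns (nd_22 H.q2)
  have v2 := mns (vl_22 H.q2)
  have key := LB.A2m2p_pm.fin123 (t := t) (t2 := t') (by linarith) (by linarith) (by linarith) (by linarith) (by linarith) (by linarith) (by linarith) (hoA H e1 e2) (l1A H e1 e2) (l3A H e1 e2)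
  exact useA_123 H (Or.inl rfl) (Or.inr rfl) e1 e2 v1 v2 key.le

theorem A22_pm_133 : TriA 1 3 3 2 2 1 (-1) := by
  intro t t' H
  have hp := h0_pos
  obtain ⟨a1, a2⟩ := Q1.1 H.q1
  obtain ⟨b1, b2⟩ := Q3.1 H.q2
  obtain ⟨g1, g2⟩ := Q3.1 H.q3
  have e1 := pls (nd_21 H.q1)
  have v1 := pls (vl_21 H.q1)
  have e2 := mns (nd_23 H.q2)
  have v2 := mns (vl_23 H.q2)
  have key := LB.A2m2p_pm.fin133 (t := t) (t2 := t') (by linarith) (by linarith) (by linarith) (by linarith) (by linarith) (by linarith) (by linarith) (hoA H e1 e2) (l1A H e1 e2) (l3A H e1 e2)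
  exact useA_133 H (Or.inl rfl) (Or.inr rfl) e1 e2 v1 v2 key.le

theorem A22_pm_202 : TriA 2 0 2 2 2 1 (-1) := by
  intro t t' H
  have hp := h0_pos
  obtain ⟨a1, a2⟩ := Q2.1 H.q1
  obtain ⟨b1, b2⟩ := Q0.1 H.q2
  obtain ⟨g1, g2⟩ := Q2.1 H.q3
  have e1 := pls (nd_22 H.q1)
  have v1 := pls (vl_22 H.q1)
  have e2 := mns (nd_20 H.q2)
  have v2 := mns (vl_20 H.q2)
  have key := LB.A2p2m_pm.fin202 (t := t) (t2 := t') (by linarith) (by linarith) (by linarith) (by linarith) (by linarith) (by linarith) (by linarith) (hoA H e1 e2) (l1A H e1 e2) (l3A H e1 e2)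
  exact useA_202 H (Or.inl rfl) (Or.inr rfl) e1 e2 v1 v2 key.le

theorem A22_pm_203 : TriA 2 0 3 2 2 1 (-1) := by
  intro t t' H
  have hp := h0_pos
  obtain ⟨a1, a2⟩ := Q2.1 H.q1
  obtain ⟨b1, b2⟩ := Q0.1 H.q2
  obtain ⟨g1, g2⟩ := Q3.1 H.q3
  have e1 := pls (nd_22 H.q1)
  have v1 := pls (vl_22 H.q1)
  have e2 := mns (nd_20 H.q2)
  have v2 := mns (vl_20 H.q2)
  have key := LB.A2p2m_pm.fin203 (t := t) (t2 := t') (by linarith) (by linarith) (by linarith) (by linarith) (by linarith) (by linarith) (by linarith) (hoA H e1 e2) (l1A H e1 e2) (l3A H e1 e2)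
  exact useA_203 H (Or.inl rfl) (Or.inr rfl) e1 e2 v1 v2 key.le

theorem A22_pm_213 : TriA 2 1 3 2 2 1 (-1) := by
  intro t t' H
  have hp := h0_pos
  obtain ⟨a1, a2⟩ := Q2.1 H.q1
  obtain ⟨b1, b2⟩ := Q1.1 H.q2
  obtain ⟨g1, g2⟩ := Q3.1 H.q3
  have e1 := pls (nd_22 H.q1)
  have v1 := pls (vl_22 H.q1)
  have e2 := mns (nd_21 H.q2)
  have v2 := mns (vl_21 H.q2)
  have key := LB.A2p2m_pm.fin213 (t := t) (t2 := t') (by linarith) (by linarith) (by linarith) (by linarith) (by linarith) (by linarith) (by linarith) (hoA H e1 e2) (l1A H e1 e2) (l3A H e1 e2)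
  exact useA_213 H (Or.inl rfl) (Or.inr rfl) e1 e2 v1 v2 key.le

theorem A22_pm_303 : TriA 3 0 3 2 2 1 (-1) := by
  intro t t' H
  have hp := h0_pos
  obtain ⟨a1, a2⟩ := Q3.1 H.q1
  obtain ⟨b1, b2⟩ := Q0.1 H.q2
  obtain ⟨g1, g2⟩ := Q3.1 H.q3
  have e1 := pls (nd_23 H.q1)
  have v1 := pls (vl_23 H.q1)
  have e2 := mns (nd_20 H.q2)
  have v2 := mns (vl_20 H.q2)
  have key := LB.A2p2m_pm.fin303 (t := t) (t2 := t') (by linarith) (by linarith) (by linarith) (by linarith) (by linarith) (by linarith) (by linarith) (hoA H e1 e2) (l1A H e1 e2) (l3A H e1 e2)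
  exact useA_303 H (Or.inl rfl) (Or.inr rfl) e1 e2 v1 v2 key.le

theorem A22_pm_313 : TriA 3 1 3 2 2 1 (-1) := by
  intro t t' H
  have hp := h0_pos
  obtain ⟨a1, a2⟩ := Q3.1 H.q1
  obtain ⟨b1, b2⟩ := Q1.1 H.q2
  obtain ⟨g1, g2⟩ := Q3.1 H.q3
  have e1 := pls (nd_23 H.q1)
  have v1 := pls (vl_23 H.q1)
  have e2 := mns (nd_21 H.q2)
  have v2 := mns (vl_21 H.q2)
  have key := LB.A2p2m_pm.fin313 (t := t) (t2 := t') (by linarith) (by linarith) (by linarith) (by linarith) (by linarith) (by linarith) (by linarith) (hoA H e1 e2) (l1A H e1 e2) (l3A H e1 e2)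
  exact useA_313 H (Or.inl rfl) (Or.inr rfl) e1 e2 v1 v2 key.le

theorem A22_mm_001 : TriA 0 0 1 2 2 (-1) (-1) := by
  intro t t' H
  have hp := h0_pos
  obtain ⟨a1, a2⟩ := Q0.1 H.q1
  obtain ⟨b1, b2⟩ := Q0.1 H.q2
  obtain ⟨g1, g2⟩ := Q1.1 H.q3
  have e1 := mns (nd_20 H.q1)
  have v1 := mns (vl_20 H.q1)
  have e2 := mns (nd_20 H.q2)
  have v2 := mns (vl_20 H.q2)
  have key := LB.A2m2m_mm.fin001 (t := t) (t2 := t') (by linarith) (by linarith) (by linarith) (by linarith) (by linarith) (by linarith) (by linarith) (hoA H e1 e2) (l1A H e1 e2) (l3A H e1 e2)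
  exact useA_001 H (Or.inr rfl) (Or.inr rfl) e1 e2 v1 v2 key.le

theorem A22_mm_011 : TriA 0 1 1 2 2 (-1) (-1) := by
  intro t t' H
  have hp := h0_pos
  obtain ⟨a1, a2⟩ := Q0.1 H.q1
  obtain ⟨b1, b2⟩ := Q1.1 H.q2
  obtain ⟨g1, g2⟩ := Q1.1 H.q3
  have e1 := mns (nd_20 H.q1)
  have v1 := mns (vl_20 H.q1)
  have e2 := mns (nd_21 H.q2)
  have v2 := mns (vl_21 H.q2)
  have key := LB.A2m2m_mm.fin011 (t := t) (t2 := t') (by linarith) (by linarith) (by linarith) (by linarith) (by linarith) (by linarith) (by linarith) (hoA H e1 e2) (l1A H e1 e2) (l3A H e1 e2)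
  exact useA_011 H (Or.inr rfl) (Or.inr rfl) e1 e2 v1 v2 key.le

theorem A22_mm_012 : TriA 0 1 2 2 2 (-1) (-1) := by
  intro t t' H
  have hp := h0_pos
  obtain ⟨a1, a2⟩ := Q0.1 H.q1
  obtain ⟨b1, b2⟩ := Q1.1 H.q2
  obtain ⟨g1, g2⟩ := Q2.1 H.q3
  have e1 := mns (nd_20 H.q1)
  have v1 := mns (vl_20 H.q1)
  have e2 := mns (nd_21 H.q2)
  have v2 := mns (vl_21 H.q2)
  have key := LB.A2m2m_mm.fin012 (t := t) (t2 := t') (by linarith) (by linarith) (by linarith) (by linarith) (by linarith) (by linarith) (by linarith) (hoA H e1 e2) (l1A H e1 e2) (l3A H e1 e2)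
  exact useA_012 H (Or.inr rfl) (Or.inr rfl) e1 e2 v1 v2 key.le

theorem A22_mm_022 : TriA 0 2 2 2 2 (-1) (-1) := by
  intro t t' H
  have hp := h0_pos
  obtain ⟨a1, a2⟩ := Q0.1 H.q1
  obtain ⟨b1, b2⟩ := Q2.1 H.q2
  obtain ⟨g1, g2⟩ := Q2.1 H.q3
  have e1 := mns (nd_20 H.q1)
  have v1 := mns (vl_20 H.q1)
  have e2 := mns (nd_22 H.q2)
  have v2 := mns (vl_22 H.q2)
  have key := LB.A2m2p_mm.fin022 (t := t) (t2 := t') (by linarith) (by linarith) (by linarith) (by linarith) (by linarith) (by linarith) (by linarith) (hoA H e1 e2) (l1A H e1 e2) (l3A H e1 e2)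
  exact useA_022 H (Or.inr rfl) (Or.inr rfl) e1 e2 v1 v2 key.le

theorem A22_mm_023 : TriA 0 2 3 2 2 (-1) (-1) := by
  intro t t' H
  have hp := h0_pos
  obtain ⟨a1, a2⟩ := Q0.1 H.q1
  obtain ⟨b1, b2⟩ := Q2.1 H.q2
  obtain ⟨g1, g2⟩ := Q3.1 H.q3
  have e1 := mns (nd_20 H.q1)
  have v1 := mns (vl_20 H.q1)
  have e2 := mns (nd_22 H.q2)
  have v2 := mns (vl_22 H.q2)
  have key := LB.A2m2p_mm.fin023 (t := t) (t2 := t') (by linarith) (by linarith) (by linarith) (by linarith) (by linarith) (by linarith) (by linarith) (hoA H e1 e2) (l1A H e1 e2) (l3A H e1 e2)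
  exact useA_023 H (Or.inr rfl) (Or.inr rfl) e1 e2 v1 v2 key.le

theorem A22_mm_033 : TriA 0 3 3 2 2 (-1) (-1) := by
  intro t t' H
  have hp := h0_pos
  obtain ⟨a1, a2⟩ := Q0.1 H.q1
  obtain ⟨b1, b2⟩ := Q3.1 H.q2
  obtain ⟨g1, g2⟩ := Q3.1 H.q3
  have e1 := mns (nd_20 H.q1)
  have v1 := mns (vl_20 H.q1)
  have e2 := mns (nd_23 H.q2)
  have v2 := mns (vl_23 H.q2)
  have key := LB.A2m2p_mm.fin033 (t := t) (t2 := t') (by linarith) (by linarith) (by linarith) (by linarith) (by linarith) (by linarith) (by linarith) (hoA H e1 e2) (l1A H e1 e2) (l3A H e1 e2)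
  exact useA_033 H (Or.inr rfl) (Or.inr rfl) e1 e2 v1 v2 key.le

theorem A22_mm_101 : TriA 1 0 1 2 2 (-1) (-1) := by
  intro t t' H
  have hp := h0_pos
  obtain ⟨a1, a2⟩ := Q1.1 H.q1
  obtain ⟨b1, b2⟩ := Q0.1 H.q2
  obtain ⟨g1, g2⟩ := Q1.1 H.q3
  have e1 := mns (nd_21 H.q1)
  have v1 := mns (vl_21 H.q1)
  have e2 := mns (nd_20 H.q2)
  have v2 := mns (vl_20 H.q2)
  have key := LB.A2m2m_mm.fin101 (t := t) (t2 := t') (by linarith) (by linarith) (by linarith) (by linarith) (by linarith) (by linarith) (by linarith) (hoA H e1 e2) (l1A H e1 e2) (l3A H e1 e2)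
  exact useA_101 H (Or.inr rfl) (Or.inr rfl) e1 e2 v1 v2 key.le

theorem A22_mm_102 : TriA 1 0 2 2 2 (-1) (-1) := by
  intro t t' H
  have hp := h0_pos
  obtain ⟨a1, a2⟩ := Q1.1 H.q1
  obtain ⟨b1, b2⟩ := Q0.1 H.q2
  obtain ⟨g1, g2⟩ := Q2.1 H.q3
  have e1 := mns (nd_21 H.q1)
  have v1 := mns (vl_21 H.q1)
  have e2 := mns (nd_20 H.q2)
  have v2 := mns (vl_20 H.q2)
  have key := LB.A2m2m_mm.fin102 (t := t) (t2 := t') (by linarith) (by linarith) (by linarith) (by linarith) (by linarith) (by linarith) (by linarith) (hoA H e1 e2) (l1A H e1 e2) (l3A H e1 e2)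
  exact useA_102 H (Or.inr rfl) (Or.inr rfl) e1 e2 v1 v2 key.le

theorem A22_mm_112 : TriA 1 1 2 2 2 (-1) (-1) := by
  intro t t' H
  have hp := h0_pos
  obtain ⟨a1, a2⟩ := Q1.1 H.q1
  obtain ⟨b1, b2⟩ := Q1.1 H.q2
  obtain ⟨g1, g2⟩ := Q2.1 H.q3
  have e1 := mns (nd_21 H.q1)
  have v1 := mns (vl_21 H.q1)
  have e2 := mns (nd_21 H.q2)
  have v2 := mns (vl_21 H.q2)
  have key := LB.A2m2m_mm.fin112 (t := t) (t2 := t') (by linarith) (by linarith) (by linarith) (by linarith) (by linarith) (by linarith) (by linarith) (hoA H e1 e2) (l1A H e1 e2) (l3A H e1 e2)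
  exact useA_112 H (Or.inr rfl) (Or.inr rfl) e1 e2 v1 v2 key.le

theorem A22_mm_113 : TriA 1 1 3 2 2 (-1) (-1) := by
  intro t t' H
  have hp := h0_pos
  obtain ⟨a1, a2⟩ := Q1.1 H.q1
  obtain ⟨b1, b2⟩ := Q1.1 H.q2
  obtain ⟨g1, g2⟩ := Q3.1 H.q3
  have e1 := mns (nd_21 H.q1)
  have v1 := mns (vl_21 H.q1)
  have e2 := mns (nd_21 H.q2)
  have v2 := mns (vl_21 H.q2)
  have key := LB.A2m2m_mm.fin113 (t := t) (t2 := t') (by linarith) (by linarith) (by linarith) (by linarith) (by linarith) (by linarith) (by linarith) (hoA H e1 e2) (l1A H e1 e2) (l3A H e1 e2)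
  exact useA_113 H (Or.inr rfl) (Or.inr rfl) e1 e2 v1 v2 key.le

theorem A22_mm_123 : TriA 1 2 3 2 2 (-1) (-1) := by
  intro t t' H
  have hp := h0_pos
  obtain ⟨a1, a2⟩ := Q1.1 H.q1
  obtain ⟨b1, b2⟩ := Q2.1 H.q2
  obtain ⟨g1, g2⟩ := Q3.1 H.q3
  have e1 := mns (nd_21 H.q1)
  have v1 := mns (vl_21 H.q1)
  have e2 := mns (nd_22 H.q2)
  have v2 := mns (vl_22 H.q2)
  have key := LB.A2m2p_mm.fin123 (t := t) (t2 := t') (by linarith) (by linarith) (by linarith) (by linarith) (by linarith) (by linarith) (by linarith) (hoA H e1 e2) (l1A H e1 e2) (l3A H e1 e2)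
  exact useA_123 H (Or.inr rfl) (Or.inr rfl) e1 e2 v1 v2 key.le

theorem A22_mm_133 : TriA 1 3 3 2 2 (-1) (-1) := by
  intro t t' H
  have hp := h0_pos
  obtain ⟨a1, a2⟩ := Q1.1 H.q1
  obtain ⟨b1, b2⟩ := Q3.1 H.q2
  obtain ⟨g1, g2⟩ := Q3.1 H.q3
  have e1 := mns (nd_21 H.q1)
  have v1 := mns (vl_21 H.q1)
  have e2 := mns (nd_23 H.q2)
  have v2 := mns (vl_23 H.q2)
  have key := LB.A2m2p_mm.fin133 (t := t) (t2 := t') (by linarith) (by linarith) (by linarith) (by linarith) (by linarith) (by linarith) (by linarith) (hoA H e1 e2) (l1A H e1 e2) (l3A H e1 e2)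
  exact useA_133 H (Or.inr rfl) (Or.inr rfl) e1 e2 v1 v2 key.le

theorem A22_mm_202 : TriA 2 0 2 2 2 (-1) (-1) := by
  intro t t' H
  have hp := h0_pos
  obtain ⟨a1, a2⟩ := Q2.1 H.q1
  obtain ⟨b1, b2⟩ := Q0.1 H.q2
  obtain ⟨g1, g2⟩ := Q2.1 H.q3
  have e1 := mns (nd_22 H.q1)
  have v1 := mns (vl_22 H.q1)
  have e2 := mns (nd_20 H.q2)
  have v2 := mns (vl_20 H.q2)
  have key := LB.A2p2m_mm.fin202 (t := t) (t2 := t') (by linarith) (by linarith) (by linarith) (by linarith) (by linarith) (by linarith) (by linarith) (hoA H e1 e2) (l1A H e1 e2) (l3A H e1 e2)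
  exact useA_202 H (Or.inr rfl) (Or.inr rfl) e1 e2 v1 v2 key.le

theorem A22_mm_203 : TriA 2 0 3 2 2 (-1) (-1) := by
  intro t t' H
  have hp := h0_pos
  obtain ⟨a1, a2⟩ := Q2.1 H.q1
  obtain ⟨b1, b2⟩ := Q0.1 H.q2
  obtain ⟨g1, g2⟩ := Q3.1 H.q3
  have e1 := mns (nd_22 H.q1)
  have v1 := mns (vl_22 H.q1)
  have e2 := mns (nd_20 H.q2)
  have v2 := mns (vl_20 H.q2)
  have key := LB.A2p2m_mm.fin203 (t := t) (t2 := t') (by linarith) (by linarith) (by linarith) (by linarith) (by linarith) (by linarith) (by linarith) (hoA H e1 e2) (l1A H e1 e2) (l3A H e1 e2)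
  exact useA_203 H (Or.inr rfl) (Or.inr rfl) e1 e2 v1 v2 key.le

theorem A22_mm_213 : TriA 2 1 3 2 2 (-1) (-1) := by
  intro t t' H
  have hp := h0_pos
  obtain ⟨a1, a2⟩ := Q2.1 H.q1
  obtain ⟨b1, b2⟩ := Q1.1 H.q2
  obtain ⟨g1, g2⟩ := Q3.1 H.q3
  have e1 := mns (nd_22 H.q1)
  have v1 := mns (vl_22 H.q1)
  have e2 := mns (nd_21 H.q2)
  have v2 := mns (vl_21 H.q2)
  have key := LB.A2p2m_mm.fin213 (t := t) (t2 := t') (by linarith) (by linarith) (by linarith) (by linarith) (by linarith) (by linarith) (by linarith) (hoA H e1 e2) (l1A H e1 e2) (l3A H e1 e2)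
  exact useA_213 H (Or.inr rfl) (Or.inr rfl) e1 e2 v1 v2 key.le

theorem A22_mm_303 : TriA 3 0 3 2 2 (-1) (-1) := by
  intro t t' H
  have hp := h0_pos
  obtain ⟨a1, a2⟩ := Q3.1 H.q1
  obtain ⟨b1, b2⟩ := Q0.1 H.q2
  obtain ⟨g1, g2⟩ := Q3.1 H.q3
  have e1 := mns (nd_23 H.q1)
  have v1 := mns (vl_23 H.q1)
  have e2 := mns (nd_20 H.q2)
  have v2 := mns (vl_20 H.q2)
  have key := LB.A2p2m_mm.fin303 (t := t) (t2 := t') (by linarith) (by linarith) (by linarith) (by linarith) (by linarith) (by linarith) (by linarith) (hoA H e1 e2) (l1A H e1 e2) (l3A H e1 e2)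
  exact useA_303 H (Or.inr rfl) (Or.inr rfl) e1 e2 v1 v2 key.le

theorem A22_mm_313 : TriA 3 1 3 2 2 (-1) (-1) := by
  intro t t' H
  have hp := h0_pos
  obtain ⟨a1, a2⟩ := Q3.1 H.q1
  obtain ⟨b1, b2⟩ := Q1.1 H.q2
  obtain ⟨g1, g2⟩ := Q3.1 H.q3
  have e1 := mns (nd_23 H.q1)
  have v1 := mns (vl_23 H.q1)
  have e2 := mns (nd_21 H.q2)
  have v2 := mns (vl_21 H.q2)
  have key := LB.A2p2m_mm.fin313 (t := t) (t2 := t') (by linarith) (by linarith) (by linarith) (by linarith) (by linarith) (by linarith) (by linarith) (hoA H e1 e2) (l1A H e1 e2) (l3A H e1 e2)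
  exact useA_313 H (Or.inr rfl) (Or.inr rfl) e1 e2 v1 v2 key.le

theorem A22_pp :
    FamWA PF 2 2 1 1 := by
  refine AllTriA.fam (Or.inl rfl) (Or.inl rfl) ⟨A22_pp_001, A22_pp_011, A22_pp_012, A22_pp_022, A22_pp_023, A22_pp_033, A22_pp_101, A22_pp_102, A22_pp_112, A22_pp_113, A22_pp_123, A22_pp_133, A22_pp_202, A22_pp_203, A22_pp_213, A22_pp_303, A22_pp_313⟩

theorem A22_pm :
    FamWA PF 2 2 1 (-1) := by
  refine AllTriA.fam (Or.inl rfl) (Or.inr rfl) ⟨A22_pm_001, A22_pm_011, A22_pm_012, A22_pm_022, A22_pm_023, A22_pm_033, A22_pm_101, A22_pm_102, A22_pm_112, A22_pm_113, A22_pm_123, A22_pm_133, A22_pm_202, A22_pm_203, A22_pm_213, A22_pm_303, A22_pm_313⟩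

theorem A22_mm :
    FamWA PF 2 2 (-1) (-1) := by
  refine AllTriA.fam (Or.inr rfl) (Or.inr rfl) ⟨A22_mm_001, A22_mm_011, A22_mm_012, A22_mm_022, A22_mm_023, A22_mm_033, A22_mm_101, A22_mm_102, A22_mm_112, A22_mm_113, A22_mm_123, A22_mm_133, A22_mm_202, A22_mm_203, A22_mm_213, A22_mm_303, A22_mm_313⟩

end Pool.Agent.Strip051.LC.Line.Glue
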