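import Pool.Agent.Strip051.LB.B1m0m_mm
import Pool.Agent.Strip051.LB.B1m0m_pm
import Pool.Agent.Strip051.LB.B1m0m_pp
import Pool.Agent.Strip051.LB.B1m0p_mm
import Pool.Agent.Strip051.LB.B1m0p_pm
import Pool.Agent.Strip051.LB.B1m0p_pp
import Pool.Agent.Strip051.LB.B1p0p_mm
import Pool.Agent.Strip051.LB.B1p0p_pm
import Pool.Agent.Strip051.LB.B1p0p_pp
import Pool.Agent.Strip051.LC.Line.GlueA

/-! # The family B, curves 1 and 0 -/

namespace Pool.Agent.Strip051.LC.Line.Glue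

open Pool.Agent.StripNear Pool.Agent.StripSquare Pool.Agent.Strip051.Sweep
  Pool.Agent.Strip051.LC Pool.Agent.Strip051.LC.Line Pool.Agent.Strip051.LB.Fn Pool.Agent.Strip051

theorem B10_pp_001 : TriB 0 0 1 1 0 1 1 := by
  intro t t' H
  have hp := h0_pos
  obtain ⟨a1, a2⟩ := Q0.1 H.q1
  obtain ⟨b1, b2⟩ := Q0.1 H.q2
  obtain ⟨g1, g2⟩ := Q1.1 H.q3
  have e1 := pls (nd_10 H.q1)
  have v1 := pls (vl_10 H.q1)
  have e2 := pls (nd_01 H.q3)
  have v2 := pls (vl_01 H.q3 H.d3)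
  have key := LB.B1m0m_pp.fin001 (t := t) (T := t + t') (by linarith) (by linarith) (by linarith) (by linarith) (by linarith) (by linarith) (by linarith) (hoB H e1 e2) (l1B H e1 e2) (l3B H e1 e2)
  exact useB_001 H (Or.inl rfl) (Or.inl rfl) e1 e2 v1 v2 key.le

theorem B10_pp_011 (c011 : CubeB 0 1 1 1 0 1 1) : TriB 0 1 1 1 0 1 1 := by
  intro t t' H
  have hp := h0_pos
  obtain ⟨a1, a2⟩ := Q0.1 H.q1
  obtain ⟨b1, b2⟩ := Q1.1 H.q2
  obtain ⟨g1, g2⟩ := Q1.1 H.q3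
  have e1 := pls (nd_10 H.q1)
  have v1 := pls (vl_10 H.q1)
  have e2 := pls (nd_01 H.q3)
  have v2 := pls (vl_01 H.q3 H.d3)
  have key := LB.B1m0m_pp.fin011 (t := t) (T := t + t') (by linarith) (by linarith) (by linarith) (by linarith) (by linarith) (by linarith) (by linarith) (hoB H e1 e2) (l1B H e1 e2) (l3B H e1 e2)
  rcases key with ⟨k1, k2, k3⟩ | key
  · refine c011 t t' H ?_
    simp only [Near, co, abs_lt]
    exact ⟨⟨by linarith, by linarith⟩, ⟨by linarith, by linarith⟩, ⟨by linarith, by linarith⟩⟩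
  · exact useB_011 H (Or.inl rfl) (Or.inl rfl) e1 e2 v1 v2 key.le

theorem B10_pp_012 (c012 : CubeB 0 1 2 1 0 1 1) : TriB 0 1 2 1 0 1 1 := by
  intro t t' H
  have hp := h0_pos
  obtain ⟨a1, a2⟩ := Q0.1 H.q1
  obtain ⟨b1, b2⟩ := Q1.1 H.q2
  obtain ⟨g1, g2⟩ := Q2.1 H.q3
  have e1 := pls (nd_10 H.q1)
  have v1 := pls (vl_10 H.q1)
  have e2 := pls (nd_02 H.q3)
  have v2 := pls (vl_02 H.q3 H.d3)
  have key := LB.B1m0p_pp.fin012 (t := t) (T := t + t') (by linarith) (by linarith) (by linarith) (by linarith) (by linarith) (by linarith) ((show t + t' < 1 from H.d3).le) (by linarith) (hoB H e1 e2) (l1B H e1 e2) (l3B H e1 e2)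
  rcases key with ⟨k1, k2, k3⟩ | key
  · refine c012 t t' H ?_
    simp only [Near, co, abs_lt]
    exact ⟨⟨by linarith, by linarith⟩, ⟨by linarith, by linarith⟩, ⟨by linarith, by linarith⟩⟩
  · exact useB_012 H (Or.inl rfl) (Or.inl rfl) e1 e2 v1 v2 key.le

theorem B10_pp_022 (c022 : CubeB 0 2 2 1 0 1 1) : TriB 0 2 2 1 0 1 1 := by
  intro t t' H
  have hp := h0_pos
  obtain ⟨a1, a2⟩ := Q0.1 H.q1
  obtain ⟨b1, b2⟩ := Q2.1 H.q2
  obtain ⟨g1, g2⟩ := Q2.1 H.q3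
  have e1 := pls (nd_10 H.q1)
  have v1 := pls (vl_10 H.q1)
  have e2 := pls (nd_02 H.q3)
  have v2 := pls (vl_02 H.q3 H.d3)
  have key := LB.B1m0p_pp.fin022 (t := t) (T := t + t') (by linarith) (by linarith) (by linarith) (by linarith) (by linarith) (by linarith) ((show t + t' < 1 from H.d3).le) (by linarith) (hoB H e1 e2) (l1B H e1 e2) (l3B H e1 e2)
  rcases key with ⟨k1, k2, k3⟩ | key
  · refine c022 t t' H ?_
    simp only [Near, co, abs_lt]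
    exact ⟨⟨by linarith, by linarith⟩, ⟨by linarith, by linarith⟩, ⟨by linarith, by linarith⟩⟩
  · exact useB_022 H (Or.inl rfl) (Or.inl rfl) e1 e2 v1 v2 key.le

theorem B10_pp_023 : TriB 0 2 3 1 0 1 1 := fun _ _ H => (no_c1 H.q3 H.d3).elim

theorem B10_pp_033 : TriB 0 3 3 1 0 1 1 := fun _ _ H => (no_c1 H.q3 H.d3).elim

theorem B10_pp_101 : TriB 1 0 1 1 0 1 1 := by
  intro t t' H
  have hp := h0_pos
  obtain ⟨a1, a2⟩ := Q1.1 H.q1
  obtain ⟨b1, b2⟩ := Q0.1 H.q2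
  obtain ⟨g1, g2⟩ := Q1.1 H.q3
  have e1 := pls (nd_11 H.q1)
  have v1 := pls (vl_11 H.q1)
  have e2 := pls (nd_01 H.q3)
  have v2 := pls (vl_01 H.q3 H.d3)
  have key := LB.B1m0m_pp.fin101 (t := t) (T := t + t') (by linarith) (by linarith) (by linarith) (by linarith) (by linarith) (by linarith) (by linarith) (hoB H e1 e2) (l1B H e1 e2) (l3B H e1 e2)
  exact useB_101 H (Or.inl rfl) (Or.inl rfl) e1 e2 v1 v2 key.le

theorem B10_pp_102 : TriB 1 0 2 1 0 1 1 := by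
  intro t t' H
  have hp := h0_pos
  obtain ⟨a1, a2⟩ := Q1.1 H.q1
  obtain ⟨b1, b2⟩ := Q0.1 H.q2
  obtain ⟨g1, g2⟩ := Q2.1 H.q3
  have e1 := pls (nd_11 H.q1)
  have v1 := pls (vl_11 H.q1)
  have e2 := pls (nd_02 H.q3)
  have v2 := pls (vl_02 H.q3 H.d3)
  have key := LB.B1m0p_pp.fin102 (t := t) (T := t + t') (by linarith) (by linarith) (by linarith) (by linarith) (by linarith) (by linarith) ((show t + t' < 1 from H.d3).le) (by linarith) (hoB H e1 e2) (l1B H e1 e2) (l3B H e1 e2)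
  exact useB_102 H (Or.inl rfl) (Or.inl rfl) e1 e2 v1 v2 key.le

theorem B10_pp_112 : TriB 1 1 2 1 0 1 1 := by
  intro t t' H
  have hp := h0_pos
  obtain ⟨a1, a2⟩ := Q1.1 H.q1
  obtain ⟨b1, b2⟩ := Q1.1 H.q2
  obtain ⟨g1, g2⟩ := Q2.1 H.q3
  have e1 := pls (nd_11 H.q1)
  have v1 := pls (vl_11 H.q1)
  have e2 := pls (nd_02 H.q3)
  have v2 := pls (vl_02 H.q3 H.d3)
  have key := LB.B1m0p_pp.fin112 (t := t) (T := t + t') (by linarith) (by linarith) (by linarith) (by linarith) (by linarith) (by linarith) ((show t + t' < 1 from H.d3).le) (by linarith) (hoB H e1 e2) (l1B H e1 e2) (l3B H e1 e2)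
  exact useB_112 H (Or.inl rfl) (Or.inl rfl) e1 e2 v1 v2 key.le

theorem B10_pp_113 : TriB 1 1 3 1 0 1 1 := fun _ _ H => (no_c1 H.q3 H.d3).elim

theorem B10_pp_123 : TriB 1 2 3 1 0 1 1 := fun _ _ H => (no_c1 H.q3 H.d3).elim

theorem B10_pp_133 : TriB 1 3 3 1 0 1 1 := fun _ _ H => (no_c1 H.q3 H.d3).elim

theorem B10_pp_202 : TriB 2 0 2 1 0 1 1 := by
  intro t t' H
  have hp := h0_pos
  obtain ⟨a1, a2⟩ := Q2.1 H.q1
  obtain ⟨b1, b2⟩ := Q0.1 H.q2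
  obtain ⟨g1, g2⟩ := Q2.1 H.q3
  have e1 := pls (nd_12 H.q1)
  have v1 := pls (vl_12 H.q1)
  have e2 := pls (nd_02 H.q3)
  have v2 := pls (vl_02 H.q3 H.d3)
  have key := LB.B1p0p_pp.fin202 (t := t) (T := t + t') (by linarith) (by linarith) (by linarith) (by linarith) (by linarith) (by linarith) ((show t + t' < 1 from H.d3).le) (by linarith) (hoB H e1 e2) (l1B H e1 e2) (l3B H e1 e2)
  exact useB_202 H (Or.inl rfl) (Or.inl rfl) e1 e2 v1 v2 key.le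

theorem B10_pp_203 : TriB 2 0 3 1 0 1 1 := fun _ _ H => (no_c1 H.q3 H.d3).elim

theorem B10_pp_213 : TriB 2 1 3 1 0 1 1 := fun _ _ H => (no_c1 H.q3 H.d3).elim

theorem B10_pp_303 : TriB 3 0 3 1 0 1 1 := fun _ _ H => (no_c1 H.q3 H.d3).elim

theorem B10_pp_313 : TriB 3 1 3 1 0 1 1 := fun _ _ H => (no_c1 H.q3 H.d3).elim

theorem B10_pm_001 : TriB 0 0 1 1 0 1 (-1) := by
  intro t t' H
  have hp := h0_pos
  obtain ⟨a1, a2⟩ := Q0.1 H.q1
  obtain ⟨b1, b2⟩ := Q0.1 H.q2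
  obtain ⟨g1, g2⟩ := Q1.1 H.q3
  have e1 := pls (nd_10 H.q1)
  have v1 := pls (vl_10 H.q1)
  have e2 := mns (nd_01 H.q3)
  have v2 := mns (vl_01 H.q3 H.d3)
  have key := LB.B1m0m_pm.fin001 (t := t) (T := t + t') (by linarith) (by linarith) (by linarith) (by linarith) (by linarith) (by linarith) (by linarith) (hoB H e1 e2) (l1B H e1 e2) (l3B H e1 e2)
  exact useB_001 H (Or.inl rfl) (Or.inr rfl) e1 e2 v1 v2 key.le

theorem B10_pm_011 (c011 : CubeB 0 1 1 1 0 1 (-1)) : TriB 0 1 1 1 0 1 (-1) := by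
  intro t t' H
  have hp := h0_pos
  obtain ⟨a1, a2⟩ := Q0.1 H.q1
  obtain ⟨b1, b2⟩ := Q1.1 H.q2
  obtain ⟨g1, g2⟩ := Q1.1 H.q3
  have e1 := pls (nd_10 H.q1)
  have v1 := pls (vl_10 H.q1)
  have e2 := mns (nd_01 H.q3)
  have v2 := mns (vl_01 H.q3 H.d3)
  have key := LB.B1m0m_pm.fin011 (t := t) (T := t + t') (by linarith) (by linarith) (by linarith) (by linarith) (by linarith) (by linarith) (by linarith) (hoB H e1 e2) (l1B H e1 e2) (l3B H e1 e2)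
  rcases key with ⟨k1, k2, k3⟩ | key
  · refine c011 t t' H ?_
    simp only [Near, co, abs_lt]
    exact ⟨⟨by linarith, by linarith⟩, ⟨by linarith, by linarith⟩, ⟨by linarith, by linarith⟩⟩
  · exact useB_011 H (Or.inl rfl) (Or.inr rfl) e1 e2 v1 v2 key.le

theorem B10_pm_012 (c012 : CubeB 0 1 2 1 0 1 (-1)) : TriB 0 1 2 1 0 1 (-1) := by
  intro t t' H
  have hp := h0_pos
  obtain ⟨a1, a2⟩ := Q0.1 H.q1
  obtain ⟨b1, b2⟩ := Q1.1 H.q2
  obtain ⟨g1, g2⟩ := Q2.1 H.q3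
  have e1 := pls (nd_10 H.q1)
  have v1 := pls (vl_10 H.q1)
  have e2 := mns (nd_02 H.q3)
  have v2 := mns (vl_02 H.q3 H.d3)
  have key := LB.B1m0p_pm.fin012 (t := t) (T := t + t') (by linarith) (by linarith) (by linarith) (by linarith) (by linarith) (by linarith) ((show t + t' < 1 from H.d3).le) (by linarith) (hoB H e1 e2) (l1B H e1 e2) (l3B H e1 e2)
  rcases key with ⟨k1, k2, k3⟩ | key
  · refine c012 t t' H ?_
    simp only [Near, co, abs_lt]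
    exact ⟨⟨by linarith, by linarith⟩, ⟨by linarith, by linarith⟩, ⟨by linarith, by linarith⟩⟩
  · exact useB_012 H (Or.inl rfl) (Or.inr rfl) e1 e2 v1 v2 key.le

theorem B10_pm_022 (c022 : CubeB 0 2 2 1 0 1 (-1)) : TriB 0 2 2 1 0 1 (-1) := by
  intro t t' H
  have hp := h0_pos
  obtain ⟨a1, a2⟩ := Q0.1 H.q1
  obtain ⟨b1, b2⟩ := Q2.1 H.q2
  obtain ⟨g1, g2⟩ := Q2.1 H.q3
  have e1 := pls (nd_10 H.q1)
  have v1 := pls (vl_10 H.q1)
  have e2 := mns (nd_02 H.q3)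
  have v2 := mns (vl_02 H.q3 H.d3)
  have key := LB.B1m0p_pm.fin022 (t := t) (T := t + t') (by linarith) (by linarith) (by linarith) (by linarith) (by linarith) (by linarith) ((show t + t' < 1 from H.d3).le) (by linarith) (hoB H e1 e2) (l1B H e1 e2) (l3B H e1 e2)
  rcases key with ⟨k1, k2, k3⟩ | key
  · refine c022 t t' H ?_
    simp only [Near, co, abs_lt]
    exact ⟨⟨by linarith, by linarith⟩, ⟨by linarith, by linarith⟩, ⟨by linarith, by linarith⟩⟩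
  · exact useB_022 H (Or.inl rfl) (Or.inr rfl) e1 e2 v1 v2 key.le

theorem B10_pm_023 : TriB 0 2 3 1 0 1 (-1) := fun _ _ H => (no_c1 H.q3 H.d3).elim

theorem B10_pm_033 : TriB 0 3 3 1 0 1 (-1) := fun _ _ H => (no_c1 H.q3 H.d3).elim

theorem B10_pm_101 : TriB 1 0 1 1 0 1 (-1) := by
  intro t t' H
  have hp := h0_pos
  obtain ⟨a1, a2⟩ := Q1.1 H.q1
  obtain ⟨b1, b2⟩ := Q0.1 H.q2
  obtain ⟨g1, g2⟩ := Q1.1 H.q3
  have e1 := pls (nd_11 H.q1)
  have v1 := pls (vl_11 H.q1)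
  have e2 := mns (nd_01 H.q3)
  have v2 := mns (vl_01 H.q3 H.d3)
  have key := LB.B1m0m_pm.fin101 (t := t) (T := t + t') (by linarith) (by linarith) (by linarith) (by linarith) (by linarith) (by linarith) (by linarith) (hoB H e1 e2) (l1B H e1 e2) (l3B H e1 e2)
  exact useB_101 H (Or.inl rfl) (Or.inr rfl) e1 e2 v1 v2 key.le

theorem B10_pm_102 : TriB 1 0 2 1 0 1 (-1) := by
  intro t t' H
  have hp := h0_pos
  obtain ⟨a1, a2⟩ := Q1.1 H.q1
  obtain ⟨b1, b2⟩ := Q0.1 H.q2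
  obtain ⟨g1, g2⟩ := Q2.1 H.q3
  have e1 := pls (nd_11 H.q1)
  have v1 := pls (vl_11 H.q1)
  have e2 := mns (nd_02 H.q3)
  have v2 := mns (vl_02 H.q3 H.d3)
  have key := LB.B1m0p_pm.fin102 (t := t) (T := t + t') (by linarith) (by linarith) (by linarith) (by linarith) (by linarith) (by linarith) ((show t + t' < 1 from H.d3).le) (by linarith) (hoB H e1 e2) (l1B H e1 e2) (l3B H e1 e2)
  exact useB_102 H (Or.inl rfl) (Or.inr rfl) e1 e2 v1 v2 key.le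

theorem B10_pm_112 : TriB 1 1 2 1 0 1 (-1) := by
  intro t t' H
  have hp := h0_pos
  obtain ⟨a1, a2⟩ := Q1.1 H.q1
  obtain ⟨b1, b2⟩ := Q1.1 H.q2
  obtain ⟨g1, g2⟩ := Q2.1 H.q3
  have e1 := pls (nd_11 H.q1)
  have v1 := pls (vl_11 H.q1)
  have e2 := mns (nd_02 H.q3)
  have v2 := mns (vl_02 H.q3 H.d3)
  have key := LB.B1m0p_pm.fin112 (t := t) (T := t + t') (by linarith) (by linarith) (by linarith) (by linarith) (by linarith) (by linarith) ((show t + t' < 1 from H.d3).le) (by linarith) (hoB H e1 e2) (l1B H e1 e2) (l3B H e1 e2)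
  exact useB_112 H (Or.inl rfl) (Or.inr rfl) e1 e2 v1 v2 key.le

theorem B10_pm_113 : TriB 1 1 3 1 0 1 (-1) := fun _ _ H => (no_c1 H.q3 H.d3).elim

theorem B10_pm_123 : TriB 1 2 3 1 0 1 (-1) := fun _ _ H => (no_c1 H.q3 H.d3).elim

theorem B10_pm_133 : TriB 1 3 3 1 0 1 (-1) := fun _ _ H => (no_c1 H.q3 H.d3).elim

theorem B10_pm_202 (c202 : CubeB 2 0 2 1 0 1 (-1)) : TriB 2 0 2 1 0 1 (-1) := by
  intro t t' H
  have hp := h0_pos
  obtain ⟨a1, a2⟩ := Q2.1 H.q1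
  obtain ⟨b1, b2⟩ := Q0.1 H.q2
  obtain ⟨g1, g2⟩ := Q2.1 H.q3
  have e1 := pls (nd_12 H.q1)
  have v1 := pls (vl_12 H.q1)
  have e2 := mns (nd_02 H.q3)
  have v2 := mns (vl_02 H.q3 H.d3)
  have key := LB.B1p0p_pm.fin202 (t := t) (T := t + t') (by linarith) (by linarith) (by linarith) (by linarith) (by linarith) (by linarith) ((show t + t' < 1 from H.d3).le) (by linarith) (hoB H e1 e2) (l1B H e1 e2) (l3B H e1 e2)
  rcases key with ⟨k1, k2, k3⟩ | key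
  · refine c202 t t' H ?_
    simp only [Near, co, abs_lt]
    exact ⟨⟨by linarith, by linarith⟩, ⟨by linarith, by linarith⟩, ⟨by linarith, by linarith⟩⟩
  · exact useB_202 H (Or.inl rfl) (Or.inr rfl) e1 e2 v1 v2 key.le

theorem B10_pm_203 : TriB 2 0 3 1 0 1 (-1) := fun _ _ H => (no_c1 H.q3 H.d3).elim

theorem B10_pm_213 : TriB 2 1 3 1 0 1 (-1) := fun _ _ H => (no_c1 H.q3 H.d3).elim

theorem B10_pm_303 : TriB 3 0 3 1 0 1 (-1) := fun _ _ H => (no_c1 H.q3 H.d3).elim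

theorem B10_pm_313 : TriB 3 1 3 1 0 1 (-1) := fun _ _ H => (no_c1 H.q3 H.d3).elim

theorem B10_mm_001 : TriB 0 0 1 1 0 (-1) (-1) := by
  intro t t' H
  have hp := h0_pos
  obtain ⟨a1, a2⟩ := Q0.1 H.q1
  obtain ⟨b1, b2⟩ := Q0.1 H.q2
  obtain ⟨g1, g2⟩ := Q1.1 H.q3
  have e1 := mns (nd_10 H.q1)
  have v1 := mns (vl_10 H.q1)
  have e2 := mns (nd_01 H.q3)
  have v2 := mns (vl_01 H.q3 H.d3)
  have key := LB.B1m0m_mm.fin001 (t := t) (T := t + t') (by linarith) (by linarith) (by linarith) (by linarith) (by linarith) (by linarith) (by linarith) (hoB H e1 e2) (l1B H e1 e2) (l3B H e1 e2)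
  exact useB_001 H (Or.inr rfl) (Or.inr rfl) e1 e2 v1 v2 key.le

theorem B10_mm_011 : TriB 0 1 1 1 0 (-1) (-1) := by
  intro t t' H
  have hp := h0_pos
  obtain ⟨a1, a2⟩ := Q0.1 H.q1
  obtain ⟨b1, b2⟩ := Q1.1 H.q2
  obtain ⟨g1, g2⟩ := Q1.1 H.q3
  have e1 := mns (nd_10 H.q1)
  have v1 := mns (vl_10 H.q1)
  have e2 := mns (nd_01 H.q3)
  have v2 := mns (vl_01 H.q3 H.d3)
  have key := LB.B1m0m_mm.fin011 (t := t) (T := t + t') (by linarith) (by linarith) (by linarith) (by linarith) (by linarith) (by linarith) (by linarith) (hoB H e1 e2) (l1B H e1 e2) (l3B H e1 e2)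
  exact useB_011 H (Or.inr rfl) (Or.inr rfl) e1 e2 v1 v2 key.le

theorem B10_mm_012 : TriB 0 1 2 1 0 (-1) (-1) := by
  intro t t' H
  have hp := h0_pos
  obtain ⟨a1, a2⟩ := Q0.1 H.q1
  obtain ⟨b1, b2⟩ := Q1.1 H.q2
  obtain ⟨g1, g2⟩ := Q2.1 H.q3
  have e1 := mns (nd_10 H.q1)
  have v1 := mns (vl_10 H.q1)
  have e2 := mns (nd_02 H.q3)
  have v2 := mns (vl_02 H.q3 H.d3)
  have key := LB.B1m0p_mm.fin012 (t := t) (T := t + t') (by linarith) (by linarith) (by linarith) (by linarith) (by linarith) (by linarith) ((show t + t' < 1 from H.d3).le) (by linarith) (hoB H e1 e2) (l1B H e1 e2) (l3B H e1 e2)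
  exact useB_012 H (Or.inr rfl) (Or.inr rfl) e1 e2 v1 v2 key.le

theorem B10_mm_022 : TriB 0 2 2 1 0 (-1) (-1) := by
  intro t t' H
  have hp := h0_pos
  obtain ⟨a1, a2⟩ := Q0.1 H.q1
  obtain ⟨b1, b2⟩ := Q2.1 H.q2
  obtain ⟨g1, g2⟩ := Q2.1 H.q3
  have e1 := mns (nd_10 H.q1)
  have v1 := mns (vl_10 H.q1)
  have e2 := mns (nd_02 H.q3)
  have v2 := mns (vl_02 H.q3 H.d3)
  have key := LB.B1m0p_mm.fin022 (t := t) (T := t + t') (by linarith) (by linarith) (by linarith) (by linarith) (by linarith) (by linarith) ((show t + t' < 1 from H.d3).le) (by linarith) (hoB H e1 e2) (l1B H e1 e2) (l3B H e1 e2)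
  exact useB_022 H (Or.inr rfl) (Or.inr rfl) e1 e2 v1 v2 key.le

theorem B10_mm_023 : TriB 0 2 3 1 0 (-1) (-1) := fun _ _ H => (no_c1 H.q3 H.d3).elim

theorem B10_mm_033 : TriB 0 3 3 1 0 (-1) (-1) := fun _ _ H => (no_c1 H.q3 H.d3).elim

theorem B10_mm_101 : TriB 1 0 1 1 0 (-1) (-1) := by
  intro t t' H
  have hp := h0_pos
  obtain ⟨a1, a2⟩ := Q1.1 H.q1
  obtain ⟨b1, b2⟩ := Q0.1 H.q2
  obtain ⟨g1, g2⟩ := Q1.1 H.q3
  have e1 := mns (nd_11 H.q1)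
  have v1 := mns (vl_11 H.q1)
  have e2 := mns (nd_01 H.q3)
  have v2 := mns (vl_01 H.q3 H.d3)
  have key := LB.B1m0m_mm.fin101 (t := t) (T := t + t') (by linarith) (by linarith) (by linarith) (by linarith) (by linarith) (by linarith) (by linarith) (hoB H e1 e2) (l1B H e1 e2) (l3B H e1 e2)
  exact useB_101 H (Or.inr rfl) (Or.inr rfl) e1 e2 v1 v2 key.le

theorem B10_mm_102 : TriB 1 0 2 1 0 (-1) (-1) := by
  intro t t' H
  have hp := h0_pos
  obtain ⟨a1, a2⟩ := Q1.1 H.q1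
  obtain ⟨b1, b2⟩ := Q0.1 H.q2
  obtain ⟨g1, g2⟩ := Q2.1 H.q3
  have e1 := mns (nd_11 H.q1)
  have v1 := mns (vl_11 H.q1)
  have e2 := mns (nd_02 H.q3)
  have v2 := mns (vl_02 H.q3 H.d3)
  have key := LB.B1m0p_mm.fin102 (t := t) (T := t + t') (by linarith) (by linarith) (by linarith) (by linarith) (by linarith) (by linarith) ((show t + t' < 1 from H.d3).le) (by linarith) (hoB H e1 e2) (l1B H e1 e2) (l3B H e1 e2)
  exact useB_102 H (Or.inr rfl) (Or.inr rfl) e1 e2 v1 v2 key.le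

theorem B10_mm_112 : TriB 1 1 2 1 0 (-1) (-1) := by
  intro t t' H
  have hp := h0_pos
  obtain ⟨a1, a2⟩ := Q1.1 H.q1
  obtain ⟨b1, b2⟩ := Q1.1 H.q2
  obtain ⟨g1, g2⟩ := Q2.1 H.q3
  have e1 := mns (nd_11 H.q1)
  have v1 := mns (vl_11 H.q1)
  have e2 := mns (nd_02 H.q3)
  have v2 := mns (vl_02 H.q3 H.d3)
  have key := LB.B1m0p_mm.fin112 (t := t) (T := t + t') (by linarith) (by linarith) (by linarith) (by linarith) (by linarith) (by linarith) ((show t + t' < 1 from H.d3).le) (by linarith) (hoB H e1 e2) (l1B H e1 e2) (l3B H e1 e2)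
  exact useB_112 H (Or.inr rfl) (Or.inr rfl) e1 e2 v1 v2 key.le

theorem B10_mm_113 : TriB 1 1 3 1 0 (-1) (-1) := fun _ _ H => (no_c1 H.q3 H.d3).elim

theorem B10_mm_123 : TriB 1 2 3 1 0 (-1) (-1) := fun _ _ H => (no_c1 H.q3 H.d3).elim

theorem B10_mm_133 : TriB 1 3 3 1 0 (-1) (-1) := fun _ _ H => (no_c1 H.q3 H.d3).elim

theorem B10_mm_202 : TriB 2 0 2 1 0 (-1) (-1) := by
  intro t t' H
  have hp := h0_pos
  obtain ⟨a1, a2⟩ := Q2.1 H.q1
  obtain ⟨b1, b2⟩ := Q0.1 H.q2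
  obtain ⟨g1, g2⟩ := Q2.1 H.q3
  have e1 := mns (nd_12 H.q1)
  have v1 := mns (vl_12 H.q1)
  have e2 := mns (nd_02 H.q3)
  have v2 := mns (vl_02 H.q3 H.d3)
  have key := LB.B1p0p_mm.fin202 (t := t) (T := t + t') (by linarith) (by linarith) (by linarith) (by linarith) (by linarith) (by linarith) ((show t + t' < 1 from H.d3).le) (by linarith) (hoB H e1 e2) (l1B H e1 e2) (l3B H e1 e2)
  exact useB_202 H (Or.inr rfl) (Or.inr rfl) e1 e2 v1 v2 key.le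

theorem B10_mm_203 : TriB 2 0 3 1 0 (-1) (-1) := fun _ _ H => (no_c1 H.q3 H.d3).elim

theorem B10_mm_213 : TriB 2 1 3 1 0 (-1) (-1) := fun _ _ H => (no_c1 H.q3 H.d3).elim

theorem B10_mm_303 : TriB 3 0 3 1 0 (-1) (-1) := fun _ _ H => (no_c1 H.q3 H.d3).elim

theorem B10_mm_313 : TriB 3 1 3 1 0 (-1) (-1) := fun _ _ H => (no_c1 H.q3 H.d3).elim

theorem B10_pp 
    (c011 : CubeB 0 1 1 1 0 1 1)
    (c012 : CubeB 0 1 2 1 0 1 1)
    (c022 : CubeB 0 2 2 1 0 1 1) :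
    FamWB PF 1 0 1 1 := by
  refine AllTriB.fam (Or.inl rfl) (Or.inl rfl) ⟨B10_pp_001, B10_pp_011 c011, B10_pp_012 c012, B10_pp_022 c022, B10_pp_023, B10_pp_033, B10_pp_101, B10_pp_102, B10_pp_112, B10_pp_113, B10_pp_123, B10_pp_133, B10_pp_202, B10_pp_203, B10_pp_213, B10_pp_303, B10_pp_313⟩

theorem B10_pm 
    (c011 : CubeB 0 1 1 1 0 1 (-1))
    (c012 : CubeB 0 1 2 1 0 1 (-1))
    (c022 : CubeB 0 2 2 1 0 1 (-1))
    (c202 : CubeB 2 0 2 1 0 1 (-1)) :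
    FamWB PF 1 0 1 (-1) := by
  refine AllTriB.fam (Or.inl rfl) (Or.inr rfl) ⟨B10_pm_001, B10_pm_011 c011, B10_pm_012 c012, B10_pm_022 c022, B10_pm_023, B10_pm_033, B10_pm_101, B10_pm_102, B10_pm_112, B10_pm_113, B10_pm_123, B10_pm_133, B10_pm_202 c202, B10_pm_203, B10_pm_213, B10_pm_303, B10_pm_313⟩

theorem B10_mm :
    FamWB PF 1 0 (-1) (-1) := by
  refine AllTriB.fam (Or.inr rfl) (Or.inr rfl) ⟨B10_mm_001, B10_mm_011, B10_mm_012, B10_mm_022, B10_mm_023, B10_mm_033, B10_mm_101, B10_mm_102, B10_mm_112, B10_mm_113, B10_mm_123, B10_mm_133, B10_mm_202, B10_mm_203, B10_mm_213, B10_mm_303, B10_mm_313⟩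

end Pool.Agent.Strip051.LC.Line.Glue
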