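import Pool.Agent.Strip051.LB.B2m1m_mm
import Pool.Agent.Strip051.LB.B2m1m_pm
import Pool.Agent.Strip051.LB.B2m1m_pp
import Pool.Agent.Strip051.LB.B2m1p_mm
import Pool.Agent.Strip051.LB.B2m1p_pm
import Pool.Agent.Strip051.LB.B2m1p_pp
import Pool.Agent.Strip051.LB.B2p1p_mm
import Pool.Agent.Strip051.LB.B2p1p_pm
import Pool.Agent.Strip051.LB.B2p1p_pp
import Pool.Agent.Strip051.LC.Line.GlueA

/-! # The family B, curves 2 and 1 -/

namespace Pool.Agent.Strip051.LC.Line.Glue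

open Pool.Agent.StripNear Pool.Agent.StripSquare Pool.Agent.Strip051.Sweep
  Pool.Agent.Strip051.LC Pool.Agent.Strip051.LC.Line Pool.Agent.Strip051.LB.Fn Pool.Agent.Strip051

theorem B21_pp_001 : TriB 0 0 1 2 1 1 1 := by
  intro t t' H
  have hp := h0_pos
  obtain ⟨a1, a2⟩ := Q0.1 H.q1
  obtain ⟨b1, b2⟩ := Q0.1 H.q2
  obtain ⟨g1, g2⟩ := Q1.1 H.q3
  have e1 := pls (nd_20 H.q1)
  have v1 := pls (vl_20 H.q1)
  have e2 := pls (nd_11 H.q3)
  have v2 := pls (vl_11 H.q3)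
  have key := LB.B2m1m_pp.fin001 (t := t) (T := t + t') (by linarith) (by linarith) (by linarith) (by linarith) (by linarith) (by linarith) (by linarith) (hoB H e1 e2) (l1B H e1 e2) (l3B H e1 e2)
  exact useB_001 H (Or.inl rfl) (Or.inl rfl) e1 e2 v1 v2 key.le

theorem B21_pp_011 : TriB 0 1 1 2 1 1 1 := by
  intro t t' H
  have hp := h0_pos
  obtain ⟨a1, a2⟩ := Q0.1 H.q1
  obtain ⟨b1, b2⟩ := Q1.1 H.q2
  obtain ⟨g1, g2⟩ := Q1.1 H.q3
  have e1 := pls (nd_20 H.q1)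
  have v1 := pls (vl_20 H.q1)
  have e2 := pls (nd_11 H.q3)
  have v2 := pls (vl_11 H.q3)
  have key := LB.B2m1m_pp.fin011 (t := t) (T := t + t') (by linarith) (by linarith) (by linarith) (by linarith) (by linarith) (by linarith) (by linarith) (hoB H e1 e2) (l1B H e1 e2) (l3B H e1 e2)
  exact useB_011 H (Or.inl rfl) (Or.inl rfl) e1 e2 v1 v2 key.le

theorem B21_pp_012 : TriB 0 1 2 2 1 1 1 := by
  intro t t' H
  have hp := h0_pos
  obtain ⟨a1, a2⟩ := Q0.1 H.q1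
  obtain ⟨b1, b2⟩ := Q1.1 H.q2
  obtain ⟨g1, g2⟩ := Q2.1 H.q3
  have e1 := pls (nd_20 H.q1)
  have v1 := pls (vl_20 H.q1)
  have e2 := pls (nd_12 H.q3)
  have v2 := pls (vl_12 H.q3)
  have key := LB.B2m1p_pp.fin012 (t := t) (T := t + t') (by linarith) (by linarith) (by linarith) (by linarith) (by linarith) (by linarith) (by linarith) (hoB H e1 e2) (l1B H e1 e2) (l3B H e1 e2)
  exact useB_012 H (Or.inl rfl) (Or.inl rfl) e1 e2 v1 v2 key.le

theorem B21_pp_022 : TriB 0 2 2 2 1 1 1 := by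
  intro t t' H
  have hp := h0_pos
  obtain ⟨a1, a2⟩ := Q0.1 H.q1
  obtain ⟨b1, b2⟩ := Q2.1 H.q2
  obtain ⟨g1, g2⟩ := Q2.1 H.q3
  have e1 := pls (nd_20 H.q1)
  have v1 := pls (vl_20 H.q1)
  have e2 := pls (nd_12 H.q3)
  have v2 := pls (vl_12 H.q3)
  have key := LB.B2m1p_pp.fin022 (t := t) (T := t + t') (by linarith) (by linarith) (by linarith) (by linarith) (by linarith) (by linarith) (by linarith) (hoB H e1 e2) (l1B H e1 e2) (l3B H e1 e2)
  exact useB_022 H (Or.inl rfl) (Or.inl rfl) e1 e2 v1 v2 key.le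

theorem B21_pp_023 : TriB 0 2 3 2 1 1 1 := by
  intro t t' H
  have hp := h0_pos
  obtain ⟨a1, a2⟩ := Q0.1 H.q1
  obtain ⟨b1, b2⟩ := Q2.1 H.q2
  obtain ⟨g1, g2⟩ := Q3.1 H.q3
  have e1 := pls (nd_20 H.q1)
  have v1 := pls (vl_20 H.q1)
  have e2 := pls (nd_13 H.q3)
  have v2 := pls (vl_13 H.q3)
  have key := LB.B2m1p_pp.fin023 (t := t) (T := t + t') (by linarith) (by linarith) (by linarith) (by linarith) (by linarith) (by linarith) (by linarith) (hoB H e1 e2) (l1B H e1 e2) (l3B H e1 e2)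
  exact useB_023 H (Or.inl rfl) (Or.inl rfl) e1 e2 v1 v2 key.le

theorem B21_pp_033 : TriB 0 3 3 2 1 1 1 := by
  intro t t' H
  have hp := h0_pos
  obtain ⟨a1, a2⟩ := Q0.1 H.q1
  obtain ⟨b1, b2⟩ := Q3.1 H.q2
  obtain ⟨g1, g2⟩ := Q3.1 H.q3
  have e1 := pls (nd_20 H.q1)
  have v1 := pls (vl_20 H.q1)
  have e2 := pls (nd_13 H.q3)
  have v2 := pls (vl_13 H.q3)
  have key := LB.B2m1p_pp.fin033 (t := t) (T := t + t') (by linarith) (by linarith) (by linarith) (by linarith) (by linarith) (by linarith) (by linarith) (hoB H e1 e2) (l1B H e1 e2) (l3B H e1 e2)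
  exact useB_033 H (Or.inl rfl) (Or.inl rfl) e1 e2 v1 v2 key.le

theorem B21_pp_101 : TriB 1 0 1 2 1 1 1 := by
  intro t t' H
  have hp := h0_pos
  obtain ⟨a1, a2⟩ := Q1.1 H.q1
  obtain ⟨b1, b2⟩ := Q0.1 H.q2
  obtain ⟨g1, g2⟩ := Q1.1 H.q3
  have e1 := pls (nd_21 H.q1)
  have v1 := pls (vl_21 H.q1)
  have e2 := pls (nd_11 H.q3)
  have v2 := pls (vl_11 H.q3)
  have key := LB.B2m1m_pp.fin101 (t := t) (T := t + t') (by linarith) (by linarith) (by linarith) (by linarith) (by linarith) (by linarith) (by linarith) (hoB H e1 e2) (l1B H e1 e2) (l3B H e1 e2)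
  exact useB_101 H (Or.inl rfl) (Or.inl rfl) e1 e2 v1 v2 key.le

theorem B21_pp_102 (c102 : CubeB 1 0 2 2 1 1 1) : TriB 1 0 2 2 1 1 1 := by
  intro t t' H
  have hp := h0_pos
  obtain ⟨a1, a2⟩ := Q1.1 H.q1
  obtain ⟨b1, b2⟩ := Q0.1 H.q2
  obtain ⟨g1, g2⟩ := Q2.1 H.q3
  have e1 := pls (nd_21 H.q1)
  have v1 := pls (vl_21 H.q1)
  have e2 := pls (nd_12 H.q3)
  have v2 := pls (vl_12 H.q3)
  have key := LB.B2m1p_pp.fin102 (t := t) (T := t + t') (by linarith) (by linarith) (by linarith) (by linarith) (by linarith) (by linarith) (by linarith) (hoB H e1 e2) (l1B H e1 e2) (l3B H e1 e2)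
  rcases key with ⟨k1, k2, k3⟩ | key
  · refine c102 t t' H ?_
    simp only [Near, co, abs_lt]
    exact ⟨⟨by linarith, by linarith⟩, ⟨by linarith, by linarith⟩, ⟨by linarith, by linarith⟩⟩
  · exact useB_102 H (Or.inl rfl) (Or.inl rfl) e1 e2 v1 v2 key.le

theorem B21_pp_112 : TriB 1 1 2 2 1 1 1 := by
  intro t t' H
  have hp := h0_pos
  obtain ⟨a1, a2⟩ := Q1.1 H.q1
  obtain ⟨b1, b2⟩ := Q1.1 H.q2
  obtain ⟨g1, g2⟩ := Q2.1 H.q3
  have e1 := pls (nd_21 H.q1)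
  have v1 := pls (vl_21 H.q1)
  have e2 := pls (nd_12 H.q3)
  have v2 := pls (vl_12 H.q3)
  have key := LB.B2m1p_pp.fin112 (t := t) (T := t + t') (by linarith) (by linarith) (by linarith) (by linarith) (by linarith) (by linarith) (by linarith) (hoB H e1 e2) (l1B H e1 e2) (l3B H e1 e2)
  exact useB_112 H (Or.inl rfl) (Or.inl rfl) e1 e2 v1 v2 key.le

theorem B21_pp_113 : TriB 1 1 3 2 1 1 1 := by
  intro t t' H
  have hp := h0_pos
  obtain ⟨a1, a2⟩ := Q1.1 H.q1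
  obtain ⟨b1, b2⟩ := Q1.1 H.q2
  obtain ⟨g1, g2⟩ := Q3.1 H.q3
  have e1 := pls (nd_21 H.q1)
  have v1 := pls (vl_21 H.q1)
  have e2 := pls (nd_13 H.q3)
  have v2 := pls (vl_13 H.q3)
  have key := LB.B2m1p_pp.fin113 (t := t) (T := t + t') (by linarith) (by linarith) (by linarith) (by linarith) (by linarith) (by linarith) (by linarith) (hoB H e1 e2) (l1B H e1 e2) (l3B H e1 e2)
  exact useB_113 H (Or.inl rfl) (Or.inl rfl) e1 e2 v1 v2 key.le

theorem B21_pp_123 : TriB 1 2 3 2 1 1 1 := by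
  intro t t' H
  have hp := h0_pos
  obtain ⟨a1, a2⟩ := Q1.1 H.q1
  obtain ⟨b1, b2⟩ := Q2.1 H.q2
  obtain ⟨g1, g2⟩ := Q3.1 H.q3
  have e1 := pls (nd_21 H.q1)
  have v1 := pls (vl_21 H.q1)
  have e2 := pls (nd_13 H.q3)
  have v2 := pls (vl_13 H.q3)
  have key := LB.B2m1p_pp.fin123 (t := t) (T := t + t') (by linarith) (by linarith) (by linarith) (by linarith) (by linarith) (by linarith) (by linarith) (hoB H e1 e2) (l1B H e1 e2) (l3B H e1 e2)
  exact useB_123 H (Or.inl rfl) (Or.inl rfl) e1 e2 v1 v2 key.le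

theorem B21_pp_133 : TriB 1 3 3 2 1 1 1 := by
  intro t t' H
  have hp := h0_pos
  obtain ⟨a1, a2⟩ := Q1.1 H.q1
  obtain ⟨b1, b2⟩ := Q3.1 H.q2
  obtain ⟨g1, g2⟩ := Q3.1 H.q3
  have e1 := pls (nd_21 H.q1)
  have v1 := pls (vl_21 H.q1)
  have e2 := pls (nd_13 H.q3)
  have v2 := pls (vl_13 H.q3)
  have key := LB.B2m1p_pp.fin133 (t := t) (T := t + t') (by linarith) (by linarith) (by linarith) (by linarith) (by linarith) (by linarith) (by linarith) (hoB H e1 e2) (l1B H e1 e2) (l3B H e1 e2)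
  exact useB_133 H (Or.inl rfl) (Or.inl rfl) e1 e2 v1 v2 key.le

theorem B21_pp_202 : TriB 2 0 2 2 1 1 1 := by
  intro t t' H
  have hp := h0_pos
  obtain ⟨a1, a2⟩ := Q2.1 H.q1
  obtain ⟨b1, b2⟩ := Q0.1 H.q2
  obtain ⟨g1, g2⟩ := Q2.1 H.q3
  have e1 := pls (nd_22 H.q1)
  have v1 := pls (vl_22 H.q1)
  have e2 := pls (nd_12 H.q3)
  have v2 := pls (vl_12 H.q3)
  have key := LB.B2p1p_pp.fin202 (t := t) (T := t + t') (by linarith) (by linarith) (by linarith) (by linarith) (by linarith) (by linarith) (by linarith) (hoB H e1 e2) (l1B H e1 e2) (l3B H e1 e2)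
  exact useB_202 H (Or.inl rfl) (Or.inl rfl) e1 e2 v1 v2 key.le

theorem B21_pp_203 : TriB 2 0 3 2 1 1 1 := by
  intro t t' H
  have hp := h0_pos
  obtain ⟨a1, a2⟩ := Q2.1 H.q1
  obtain ⟨b1, b2⟩ := Q0.1 H.q2
  obtain ⟨g1, g2⟩ := Q3.1 H.q3
  have e1 := pls (nd_22 H.q1)
  have v1 := pls (vl_22 H.q1)
  have e2 := pls (nd_13 H.q3)
  have v2 := pls (vl_13 H.q3)
  have key := LB.B2p1p_pp.fin203 (t := t) (T := t + t') (by linarith) (by linarith) (by linarith) (by linarith) (by linarith) (by linarith) (by linarith) (hoB H e1 e2) (l1B H e1 e2) (l3B H e1 e2)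
  exact useB_203 H (Or.inl rfl) (Or.inl rfl) e1 e2 v1 v2 key.le

theorem B21_pp_213 : TriB 2 1 3 2 1 1 1 := by
  intro t t' H
  have hp := h0_pos
  obtain ⟨a1, a2⟩ := Q2.1 H.q1
  obtain ⟨b1, b2⟩ := Q1.1 H.q2
  obtain ⟨g1, g2⟩ := Q3.1 H.q3
  have e1 := pls (nd_22 H.q1)
  have v1 := pls (vl_22 H.q1)
  have e2 := pls (nd_13 H.q3)
  have v2 := pls (vl_13 H.q3)
  have key := LB.B2p1p_pp.fin213 (t := t) (T := t + t') (by linarith) (by linarith) (by linarith) (by linarith) (by linarith) (by linarith) (by linarith) (hoB H e1 e2) (l1B H e1 e2) (l3B H e1 e2)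
  exact useB_213 H (Or.inl rfl) (Or.inl rfl) e1 e2 v1 v2 key.le

theorem B21_pp_303 : TriB 3 0 3 2 1 1 1 := by
  intro t t' H
  have hp := h0_pos
  obtain ⟨a1, a2⟩ := Q3.1 H.q1
  obtain ⟨b1, b2⟩ := Q0.1 H.q2
  obtain ⟨g1, g2⟩ := Q3.1 H.q3
  have e1 := pls (nd_23 H.q1)
  have v1 := pls (vl_23 H.q1)
  have e2 := pls (nd_13 H.q3)
  have v2 := pls (vl_13 H.q3)
  have key := LB.B2p1p_pp.fin303 (t := t) (T := t + t') (by linarith) (by linarith) (by linarith) (by linarith) (by linarith) (by linarith) (by linarith) (hoB H e1 e2) (l1B H e1 e2) (l3B H e1 e2)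
  exact useB_303 H (Or.inl rfl) (Or.inl rfl) e1 e2 v1 v2 key.le

theorem B21_pp_313 : TriB 3 1 3 2 1 1 1 := by
  intro t t' H
  have hp := h0_pos
  obtain ⟨a1, a2⟩ := Q3.1 H.q1
  obtain ⟨b1, b2⟩ := Q1.1 H.q2
  obtain ⟨g1, g2⟩ := Q3.1 H.q3
  have e1 := pls (nd_23 H.q1)
  have v1 := pls (vl_23 H.q1)
  have e2 := pls (nd_13 H.q3)
  have v2 := pls (vl_13 H.q3)
  have key := LB.B2p1p_pp.fin313 (t := t) (T := t + t') (by linarith) (by linarith) (by linarith) (by linarith) (by linarith) (by linarith) (by linarith) (hoB H e1 e2) (l1B H e1 e2) (l3B H e1 e2)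
  exact useB_313 H (Or.inl rfl) (Or.inl rfl) e1 e2 v1 v2 key.le

theorem B21_pm_001 : TriB 0 0 1 2 1 1 (-1) := by
  intro t t' H
  have hp := h0_pos
  obtain ⟨a1, a2⟩ := Q0.1 H.q1
  obtain ⟨b1, b2⟩ := Q0.1 H.q2
  obtain ⟨g1, g2⟩ := Q1.1 H.q3
  have e1 := pls (nd_20 H.q1)
  have v1 := pls (vl_20 H.q1)
  have e2 := mns (nd_11 H.q3)
  have v2 := mns (vl_11 H.q3)
  have key := LB.B2m1m_pm.fin001 (t := t) (T := t + t') (by linarith) (by linarith) (by linarith) (by linarith) (by linarith) (by linarith) (by linarith) (hoB H e1 e2) (l1B H e1 e2) (l3B H e1 e2)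
  exact useB_001 H (Or.inl rfl) (Or.inr rfl) e1 e2 v1 v2 key.le

theorem B21_pm_011 : TriB 0 1 1 2 1 1 (-1) := by
  intro t t' H
  have hp := h0_pos
  obtain ⟨a1, a2⟩ := Q0.1 H.q1
  obtain ⟨b1, b2⟩ := Q1.1 H.q2
  obtain ⟨g1, g2⟩ := Q1.1 H.q3
  have e1 := pls (nd_20 H.q1)
  have v1 := pls (vl_20 H.q1)
  have e2 := mns (nd_11 H.q3)
  have v2 := mns (vl_11 H.q3)
  have key := LB.B2m1m_pm.fin011 (t := t) (T := t + t') (by linarith) (by linarith) (by linarith) (by linarith) (by linarith) (by linarith) (by linarith) (hoB H e1 e2) (l1B H e1 e2) (l3B H e1 e2)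
  exact useB_011 H (Or.inl rfl) (Or.inr rfl) e1 e2 v1 v2 key.le

theorem B21_pm_012 : TriB 0 1 2 2 1 1 (-1) := by
  intro t t' H
  have hp := h0_pos
  obtain ⟨a1, a2⟩ := Q0.1 H.q1
  obtain ⟨b1, b2⟩ := Q1.1 H.q2
  obtain ⟨g1, g2⟩ := Q2.1 H.q3
  have e1 := pls (nd_20 H.q1)
  have v1 := pls (vl_20 H.q1)
  have e2 := mns (nd_12 H.q3)
  have v2 := mns (vl_12 H.q3)
  have key := LB.B2m1p_pm.fin012 (t := t) (T := t + t') (by linarith) (by linarith) (by linarith) (by linarith) (by linarith) (by linarith) (by linarith) (hoB H e1 e2) (l1B H e1 e2) (l3B H e1 e2)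
  exact useB_012 H (Or.inl rfl) (Or.inr rfl) e1 e2 v1 v2 key.le

theorem B21_pm_022 : TriB 0 2 2 2 1 1 (-1) := by
  intro t t' H
  have hp := h0_pos
  obtain ⟨a1, a2⟩ := Q0.1 H.q1
  obtain ⟨b1, b2⟩ := Q2.1 H.q2
  obtain ⟨g1, g2⟩ := Q2.1 H.q3
  have e1 := pls (nd_20 H.q1)
  have v1 := pls (vl_20 H.q1)
  have e2 := mns (nd_12 H.q3)
  have v2 := mns (vl_12 H.q3)
  have key := LB.B2m1p_pm.fin022 (t := t) (T := t + t') (by linarith) (by linarith) (by linarith) (by linarith) (by linarith) (by linarith) (by linarith) (hoB H e1 e2) (l1B H e1 e2) (l3B H e1 e2)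
  exact useB_022 H (Or.inl rfl) (Or.inr rfl) e1 e2 v1 v2 key.le

theorem B21_pm_023 : TriB 0 2 3 2 1 1 (-1) := by
  intro t t' H
  have hp := h0_pos
  obtain ⟨a1, a2⟩ := Q0.1 H.q1
  obtain ⟨b1, b2⟩ := Q2.1 H.q2
  obtain ⟨g1, g2⟩ := Q3.1 H.q3
  have e1 := pls (nd_20 H.q1)
  have v1 := pls (vl_20 H.q1)
  have e2 := mns (nd_13 H.q3)
  have v2 := mns (vl_13 H.q3)
  have key := LB.B2m1p_pm.fin023 (t := t) (T := t + t') (by linarith) (by linarith) (by linarith) (by linarith) (by linarith) (by linarith) (by linarith) (hoB H e1 e2) (l1B H e1 e2) (l3B H e1 e2)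
  exact useB_023 H (Or.inl rfl) (Or.inr rfl) e1 e2 v1 v2 key.le

theorem B21_pm_033 : TriB 0 3 3 2 1 1 (-1) := by
  intro t t' H
  have hp := h0_pos
  obtain ⟨a1, a2⟩ := Q0.1 H.q1
  obtain ⟨b1, b2⟩ := Q3.1 H.q2
  obtain ⟨g1, g2⟩ := Q3.1 H.q3
  have e1 := pls (nd_20 H.q1)
  have v1 := pls (vl_20 H.q1)
  have e2 := mns (nd_13 H.q3)
  have v2 := mns (vl_13 H.q3)
  have key := LB.B2m1p_pm.fin033 (t := t) (T := t + t') (by linarith) (by linarith) (by linarith) (by linarith) (by linarith) (by linarith) (by linarith) (hoB H e1 e2) (l1B H e1 e2) (l3B H e1 e2)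
  exact useB_033 H (Or.inl rfl) (Or.inr rfl) e1 e2 v1 v2 key.le

theorem B21_pm_101 : TriB 1 0 1 2 1 1 (-1) := by
  intro t t' H
  have hp := h0_pos
  obtain ⟨a1, a2⟩ := Q1.1 H.q1
  obtain ⟨b1, b2⟩ := Q0.1 H.q2
  obtain ⟨g1, g2⟩ := Q1.1 H.q3
  have e1 := pls (nd_21 H.q1)
  have v1 := pls (vl_21 H.q1)
  have e2 := mns (nd_11 H.q3)
  have v2 := mns (vl_11 H.q3)
  have key := LB.B2m1m_pm.fin101 (t := t) (T := t + t') (by linarith) (by linarith) (by linarith) (by linarith) (by linarith) (by linarith) (by linarith) (hoB H e1 e2) (l1B H e1 e2) (l3B H e1 e2)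
  exact useB_101 H (Or.inl rfl) (Or.inr rfl) e1 e2 v1 v2 key.le

theorem B21_pm_102 : TriB 1 0 2 2 1 1 (-1) := by
  intro t t' H
  have hp := h0_pos
  obtain ⟨a1, a2⟩ := Q1.1 H.q1
  obtain ⟨b1, b2⟩ := Q0.1 H.q2
  obtain ⟨g1, g2⟩ := Q2.1 H.q3
  have e1 := pls (nd_21 H.q1)
  have v1 := pls (vl_21 H.q1)
  have e2 := mns (nd_12 H.q3)
  have v2 := mns (vl_12 H.q3)
  have key := LB.B2m1p_pm.fin102 (t := t) (T := t + t') (by linarith) (by linarith) (by linarith) (by linarith) (by linarith) (by linarith) (by linarith) (hoB H e1 e2) (l1B H e1 e2) (l3B H e1 e2)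
  exact useB_102 H (Or.inl rfl) (Or.inr rfl) e1 e2 v1 v2 key.le

theorem B21_pm_112 : TriB 1 1 2 2 1 1 (-1) := by
  intro t t' H
  have hp := h0_pos
  obtain ⟨a1, a2⟩ := Q1.1 H.q1
  obtain ⟨b1, b2⟩ := Q1.1 H.q2
  obtain ⟨g1, g2⟩ := Q2.1 H.q3
  have e1 := pls (nd_21 H.q1)
  have v1 := pls (vl_21 H.q1)
  have e2 := mns (nd_12 H.q3)
  have v2 := mns (vl_12 H.q3)
  have key := LB.B2m1p_pm.fin112 (t := t) (T := t + t') (by linarith) (by linarith) (by linarith) (by linarith) (by linarith) (by linarith) (by linarith) (hoB H e1 e2) (l1B H e1 e2) (l3B H e1 e2)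
  exact useB_112 H (Or.inl rfl) (Or.inr rfl) e1 e2 v1 v2 key.le

theorem B21_pm_113 : TriB 1 1 3 2 1 1 (-1) := by
  intro t t' H
  have hp := h0_pos
  obtain ⟨a1, a2⟩ := Q1.1 H.q1
  obtain ⟨b1, b2⟩ := Q1.1 H.q2
  obtain ⟨g1, g2⟩ := Q3.1 H.q3
  have e1 := pls (nd_21 H.q1)
  have v1 := pls (vl_21 H.q1)
  have e2 := mns (nd_13 H.q3)
  have v2 := mns (vl_13 H.q3)
  have key := LB.B2m1p_pm.fin113 (t := t) (T := t + t') (by linarith) (by linarith) (by linarith) (by linarith) (by linarith) (by linarith) (by linarith) (hoB H e1 e2) (l1B H e1 e2) (l3B H e1 e2)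
  exact useB_113 H (Or.inl rfl) (Or.inr rfl) e1 e2 v1 v2 key.le

theorem B21_pm_123 : TriB 1 2 3 2 1 1 (-1) := by
  intro t t' H
  have hp := h0_pos
  obtain ⟨a1, a2⟩ := Q1.1 H.q1
  obtain ⟨b1, b2⟩ := Q2.1 H.q2
  obtain ⟨g1, g2⟩ := Q3.1 H.q3
  have e1 := pls (nd_21 H.q1)
  have v1 := pls (vl_21 H.q1)
  have e2 := mns (nd_13 H.q3)
  have v2 := mns (vl_13 H.q3)
  have key := LB.B2m1p_pm.fin123 (t := t) (T := t + t') (by linarith) (by linarith) (by linarith) (by linarith) (by linarith) (by linarith) (by linarith) (hoB H e1 e2) (l1B H e1 e2) (l3B H e1 e2)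
  exact useB_123 H (Or.inl rfl) (Or.inr rfl) e1 e2 v1 v2 key.le

theorem B21_pm_133 : TriB 1 3 3 2 1 1 (-1) := by
  intro t t' H
  have hp := h0_pos
  obtain ⟨a1, a2⟩ := Q1.1 H.q1
  obtain ⟨b1, b2⟩ := Q3.1 H.q2
  obtain ⟨g1, g2⟩ := Q3.1 H.q3
  have e1 := pls (nd_21 H.q1)
  have v1 := pls (vl_21 H.q1)
  have e2 := mns (nd_13 H.q3)
  have v2 := mns (vl_13 H.q3)
  have key := LB.B2m1p_pm.fin133 (t := t) (T := t + t') (by linarith) (by linarith) (by linarith) (by linarith) (by linarith) (by linarith) (by linarith) (hoB H e1 e2) (l1B H e1 e2) (l3B H e1 e2)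
  exact useB_133 H (Or.inl rfl) (Or.inr rfl) e1 e2 v1 v2 key.le

theorem B21_pm_202 : TriB 2 0 2 2 1 1 (-1) := by
  intro t t' H
  have hp := h0_pos
  obtain ⟨a1, a2⟩ := Q2.1 H.q1
  obtain ⟨b1, b2⟩ := Q0.1 H.q2
  obtain ⟨g1, g2⟩ := Q2.1 H.q3
  have e1 := pls (nd_22 H.q1)
  have v1 := pls (vl_22 H.q1)
  have e2 := mns (nd_12 H.q3)
  have v2 := mns (vl_12 H.q3)
  have key := LB.B2p1p_pm.fin202 (t := t) (T := t + t') (by linarith) (by linarith) (by linarith) (by linarith) (by linarith) (by linarith) (by linarith) (hoB H e1 e2) (l1B H e1 e2) (l3B H e1 e2)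
  exact useB_202 H (Or.inl rfl) (Or.inr rfl) e1 e2 v1 v2 key.le

theorem B21_pm_203 : TriB 2 0 3 2 1 1 (-1) := by
  intro t t' H
  have hp := h0_pos
  obtain ⟨a1, a2⟩ := Q2.1 H.q1
  obtain ⟨b1, b2⟩ := Q0.1 H.q2
  obtain ⟨g1, g2⟩ := Q3.1 H.q3
  have e1 := pls (nd_22 H.q1)
  have v1 := pls (vl_22 H.q1)
  have e2 := mns (nd_13 H.q3)
  have v2 := mns (vl_13 H.q3)
  have key := LB.B2p1p_pm.fin203 (t := t) (T := t + t') (by linarith) (by linarith) (by linarith) (by linarith) (by linarith) (by linarith) (by linarith) (hoB H e1 e2) (l1B H e1 e2) (l3B H e1 e2)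
  exact useB_203 H (Or.inl rfl) (Or.inr rfl) e1 e2 v1 v2 key.le

theorem B21_pm_213 : TriB 2 1 3 2 1 1 (-1) := by
  intro t t' H
  have hp := h0_pos
  obtain ⟨a1, a2⟩ := Q2.1 H.q1
  obtain ⟨b1, b2⟩ := Q1.1 H.q2
  obtain ⟨g1, g2⟩ := Q3.1 H.q3
  have e1 := pls (nd_22 H.q1)
  have v1 := pls (vl_22 H.q1)
  have e2 := mns (nd_13 H.q3)
  have v2 := mns (vl_13 H.q3)
  have key := LB.B2p1p_pm.fin213 (t := t) (T := t + t') (by linarith) (by linarith) (by linarith) (by linarith) (by linarith) (by linarith) (by linarith) (hoB H e1 e2) (l1B H e1 e2) (l3B H e1 e2)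
  exact useB_213 H (Or.inl rfl) (Or.inr rfl) e1 e2 v1 v2 key.le

theorem B21_pm_303 : TriB 3 0 3 2 1 1 (-1) := by
  intro t t' H
  have hp := h0_pos
  obtain ⟨a1, a2⟩ := Q3.1 H.q1
  obtain ⟨b1, b2⟩ := Q0.1 H.q2
  obtain ⟨g1, g2⟩ := Q3.1 H.q3
  have e1 := pls (nd_23 H.q1)
  have v1 := pls (vl_23 H.q1)
  have e2 := mns (nd_13 H.q3)
  have v2 := mns (vl_13 H.q3)
  have key := LB.B2p1p_pm.fin303 (t := t) (T := t + t') (by linarith) (by linarith) (by linarith) (by linarith) (by linarith) (by linarith) (by linarith) (hoB H e1 e2) (l1B H e1 e2) (l3B H e1 e2)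
  exact useB_303 H (Or.inl rfl) (Or.inr rfl) e1 e2 v1 v2 key.le

theorem B21_pm_313 : TriB 3 1 3 2 1 1 (-1) := by
  intro t t' H
  have hp := h0_pos
  obtain ⟨a1, a2⟩ := Q3.1 H.q1
  obtain ⟨b1, b2⟩ := Q1.1 H.q2
  obtain ⟨g1, g2⟩ := Q3.1 H.q3
  have e1 := pls (nd_23 H.q1)
  have v1 := pls (vl_23 H.q1)
  have e2 := mns (nd_13 H.q3)
  have v2 := mns (vl_13 H.q3)
  have key := LB.B2p1p_pm.fin313 (t := t) (T := t + t') (by linarith) (by linarith) (by linarith) (by linarith) (by linarith) (by linarith) (by linarith) (hoB H e1 e2) (l1B H e1 e2) (l3B H e1 e2)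
  exact useB_313 H (Or.inl rfl) (Or.inr rfl) e1 e2 v1 v2 key.le

theorem B21_mm_001 : TriB 0 0 1 2 1 (-1) (-1) := by
  intro t t' H
  have hp := h0_pos
  obtain ⟨a1, a2⟩ := Q0.1 H.q1
  obtain ⟨b1, b2⟩ := Q0.1 H.q2
  obtain ⟨g1, g2⟩ := Q1.1 H.q3
  have e1 := mns (nd_20 H.q1)
  have v1 := mns (vl_20 H.q1)
  have e2 := mns (nd_11 H.q3)
  have v2 := mns (vl_11 H.q3)
  have key := LB.B2m1m_mm.fin001 (t := t) (T := t + t') (by linarith) (by linarith) (by linarith) (by linarith) (by linarith) (by linarith) (by linarith) (hoB H e1 e2) (l1B H e1 e2) (l3B H e1 e2)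
  exact useB_001 H (Or.inr rfl) (Or.inr rfl) e1 e2 v1 v2 key.le

theorem B21_mm_011 : TriB 0 1 1 2 1 (-1) (-1) := by
  intro t t' H
  have hp := h0_pos
  obtain ⟨a1, a2⟩ := Q0.1 H.q1
  obtain ⟨b1, b2⟩ := Q1.1 H.q2
  obtain ⟨g1, g2⟩ := Q1.1 H.q3
  have e1 := mns (nd_20 H.q1)
  have v1 := mns (vl_20 H.q1)
  have e2 := mns (nd_11 H.q3)
  have v2 := mns (vl_11 H.q3)
  have key := LB.B2m1m_mm.fin011 (t := t) (T := t + t') (by linarith) (by linarith) (by linarith) (by linarith) (by linarith) (by linarith) (by linarith) (hoB H e1 e2) (l1B H e1 e2) (l3B H e1 e2)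
  exact useB_011 H (Or.inr rfl) (Or.inr rfl) e1 e2 v1 v2 key.le

theorem B21_mm_012 : TriB 0 1 2 2 1 (-1) (-1) := by
  intro t t' H
  have hp := h0_pos
  obtain ⟨a1, a2⟩ := Q0.1 H.q1
  obtain ⟨b1, b2⟩ := Q1.1 H.q2
  obtain ⟨g1, g2⟩ := Q2.1 H.q3
  have e1 := mns (nd_20 H.q1)
  have v1 := mns (vl_20 H.q1)
  have e2 := mns (nd_12 H.q3)
  have v2 := mns (vl_12 H.q3)
  have key := LB.B2m1p_mm.fin012 (t := t) (T := t + t') (by linarith) (by linarith) (by linarith) (by linarith) (by linarith) (by linarith) (by linarith) (hoB H e1 e2) (l1B H e1 e2) (l3B H e1 e2)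
  exact useB_012 H (Or.inr rfl) (Or.inr rfl) e1 e2 v1 v2 key.le

theorem B21_mm_022 : TriB 0 2 2 2 1 (-1) (-1) := by
  intro t t' H
  have hp := h0_pos
  obtain ⟨a1, a2⟩ := Q0.1 H.q1
  obtain ⟨b1, b2⟩ := Q2.1 H.q2
  obtain ⟨g1, g2⟩ := Q2.1 H.q3
  have e1 := mns (nd_20 H.q1)
  have v1 := mns (vl_20 H.q1)
  have e2 := mns (nd_12 H.q3)
  have v2 := mns (vl_12 H.q3)
  have key := LB.B2m1p_mm.fin022 (t := t) (T := t + t') (by linarith) (by linarith) (by linarith) (by linarith) (by linarith) (by linarith) (by linarith) (hoB H e1 e2) (l1B H e1 e2) (l3B H e1 e2)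
  exact useB_022 H (Or.inr rfl) (Or.inr rfl) e1 e2 v1 v2 key.le

theorem B21_mm_023 : TriB 0 2 3 2 1 (-1) (-1) := by
  intro t t' H
  have hp := h0_pos
  obtain ⟨a1, a2⟩ := Q0.1 H.q1
  obtain ⟨b1, b2⟩ := Q2.1 H.q2
  obtain ⟨g1, g2⟩ := Q3.1 H.q3
  have e1 := mns (nd_20 H.q1)
  have v1 := mns (vl_20 H.q1)
  have e2 := mns (nd_13 H.q3)
  have v2 := mns (vl_13 H.q3)
  have key := LB.B2m1p_mm.fin023 (t := t) (T := t + t') (by linarith) (by linarith) (by linarith) (by linarith) (by linarith) (by linarith) (by linarith) (hoB H e1 e2) (l1B H e1 e2) (l3B H e1 e2)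
  exact useB_023 H (Or.inr rfl) (Or.inr rfl) e1 e2 v1 v2 key.le

theorem B21_mm_033 : TriB 0 3 3 2 1 (-1) (-1) := by
  intro t t' H
  have hp := h0_pos
  obtain ⟨a1, a2⟩ := Q0.1 H.q1
  obtain ⟨b1, b2⟩ := Q3.1 H.q2
  obtain ⟨g1, g2⟩ := Q3.1 H.q3
  have e1 := mns (nd_20 H.q1)
  have v1 := mns (vl_20 H.q1)
  have e2 := mns (nd_13 H.q3)
  have v2 := mns (vl_13 H.q3)
  have key := LB.B2m1p_mm.fin033 (t := t) (T := t + t') (by linarith) (by linarith) (by linarith) (by linarith) (by linarith) (by linarith) (by linarith) (hoB H e1 e2) (l1B H e1 e2) (l3B H e1 e2)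
  exact useB_033 H (Or.inr rfl) (Or.inr rfl) e1 e2 v1 v2 key.le

theorem B21_mm_101 : TriB 1 0 1 2 1 (-1) (-1) := by
  intro t t' H
  have hp := h0_pos
  obtain ⟨a1, a2⟩ := Q1.1 H.q1
  obtain ⟨b1, b2⟩ := Q0.1 H.q2
  obtain ⟨g1, g2⟩ := Q1.1 H.q3
  have e1 := mns (nd_21 H.q1)
  have v1 := mns (vl_21 H.q1)
  have e2 := mns (nd_11 H.q3)
  have v2 := mns (vl_11 H.q3)
  have key := LB.B2m1m_mm.fin101 (t := t) (T := t + t') (by linarith) (by linarith) (by linarith) (by linarith) (by linarith) (by linarith) (by linarith) (hoB H e1 e2) (l1B H e1 e2) (l3B H e1 e2)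
  exact useB_101 H (Or.inr rfl) (Or.inr rfl) e1 e2 v1 v2 key.le

theorem B21_mm_102 : TriB 1 0 2 2 1 (-1) (-1) := by
  intro t t' H
  have hp := h0_pos
  obtain ⟨a1, a2⟩ := Q1.1 H.q1
  obtain ⟨b1, b2⟩ := Q0.1 H.q2
  obtain ⟨g1, g2⟩ := Q2.1 H.q3
  have e1 := mns (nd_21 H.q1)
  have v1 := mns (vl_21 H.q1)
  have e2 := mns (nd_12 H.q3)
  have v2 := mns (vl_12 H.q3)
  have key := LB.B2m1p_mm.fin102 (t := t) (T := t + t') (by linarith) (by linarith) (by linarith) (by linarith) (by linarith) (by linarith) (by linarith) (hoB H e1 e2) (l1B H e1 e2) (l3B H e1 e2)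
  exact useB_102 H (Or.inr rfl) (Or.inr rfl) e1 e2 v1 v2 key.le

theorem B21_mm_112 : TriB 1 1 2 2 1 (-1) (-1) := by
  intro t t' H
  have hp := h0_pos
  obtain ⟨a1, a2⟩ := Q1.1 H.q1
  obtain ⟨b1, b2⟩ := Q1.1 H.q2
  obtain ⟨g1, g2⟩ := Q2.1 H.q3
  have e1 := mns (nd_21 H.q1)
  have v1 := mns (vl_21 H.q1)
  have e2 := mns (nd_12 H.q3)
  have v2 := mns (vl_12 H.q3)
  have key := LB.B2m1p_mm.fin112 (t := t) (T := t + t') (by linarith) (by linarith) (by linarith) (by linarith) (by linarith) (by linarith) (by linarith) (hoB H e1 e2) (l1B H e1 e2) (l3B H e1 e2)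
  exact useB_112 H (Or.inr rfl) (Or.inr rfl) e1 e2 v1 v2 key.le

theorem B21_mm_113 : TriB 1 1 3 2 1 (-1) (-1) := by
  intro t t' H
  have hp := h0_pos
  obtain ⟨a1, a2⟩ := Q1.1 H.q1
  obtain ⟨b1, b2⟩ := Q1.1 H.q2
  obtain ⟨g1, g2⟩ := Q3.1 H.q3
  have e1 := mns (nd_21 H.q1)
  have v1 := mns (vl_21 H.q1)
  have e2 := mns (nd_13 H.q3)
  have v2 := mns (vl_13 H.q3)
  have key := LB.B2m1p_mm.fin113 (t := t) (T := t + t') (by linarith) (by linarith) (by linarith) (by linarith) (by linarith) (by linarith) (by linarith) (hoB H e1 e2) (l1B H e1 e2) (l3B H e1 e2)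
  exact useB_113 H (Or.inr rfl) (Or.inr rfl) e1 e2 v1 v2 key.le

theorem B21_mm_123 : TriB 1 2 3 2 1 (-1) (-1) := by
  intro t t' H
  have hp := h0_pos
  obtain ⟨a1, a2⟩ := Q1.1 H.q1
  obtain ⟨b1, b2⟩ := Q2.1 H.q2
  obtain ⟨g1, g2⟩ := Q3.1 H.q3
  have e1 := mns (nd_21 H.q1)
  have v1 := mns (vl_21 H.q1)
  have e2 := mns (nd_13 H.q3)
  have v2 := mns (vl_13 H.q3)
  have key := LB.B2m1p_mm.fin123 (t := t) (T := t + t') (by linarith) (by linarith) (by linarith) (by linarith) (by linarith) (by linarith) (by linarith) (hoB H e1 e2) (l1B H e1 e2) (l3B H e1 e2)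
  exact useB_123 H (Or.inr rfl) (Or.inr rfl) e1 e2 v1 v2 key.le

theorem B21_mm_133 : TriB 1 3 3 2 1 (-1) (-1) := by
  intro t t' H
  have hp := h0_pos
  obtain ⟨a1, a2⟩ := Q1.1 H.q1
  obtain ⟨b1, b2⟩ := Q3.1 H.q2
  obtain ⟨g1, g2⟩ := Q3.1 H.q3
  have e1 := mns (nd_21 H.q1)
  have v1 := mns (vl_21 H.q1)
  have e2 := mns (nd_13 H.q3)
  have v2 := mns (vl_13 H.q3)
  have key := LB.B2m1p_mm.fin133 (t := t) (T := t + t') (by linarith) (by linarith) (by linarith) (by linarith) (by linarith) (by linarith) (by linarith) (hoB H e1 e2) (l1B H e1 e2) (l3B H e1 e2)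
  exact useB_133 H (Or.inr rfl) (Or.inr rfl) e1 e2 v1 v2 key.le

theorem B21_mm_202 : TriB 2 0 2 2 1 (-1) (-1) := by
  intro t t' H
  have hp := h0_pos
  obtain ⟨a1, a2⟩ := Q2.1 H.q1
  obtain ⟨b1, b2⟩ := Q0.1 H.q2
  obtain ⟨g1, g2⟩ := Q2.1 H.q3
  have e1 := mns (nd_22 H.q1)
  have v1 := mns (vl_22 H.q1)
  have e2 := mns (nd_12 H.q3)
  have v2 := mns (vl_12 H.q3)
  have key := LB.B2p1p_mm.fin202 (t := t) (T := t + t') (by linarith) (by linarith) (by linarith) (by linarith) (by linarith) (by linarith) (by linarith) (hoB H e1 e2) (l1B H e1 e2) (l3B H e1 e2)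
  exact useB_202 H (Or.inr rfl) (Or.inr rfl) e1 e2 v1 v2 key.le

theorem B21_mm_203 : TriB 2 0 3 2 1 (-1) (-1) := by
  intro t t' H
  have hp := h0_pos
  obtain ⟨a1, a2⟩ := Q2.1 H.q1
  obtain ⟨b1, b2⟩ := Q0.1 H.q2
  obtain ⟨g1, g2⟩ := Q3.1 H.q3
  have e1 := mns (nd_22 H.q1)
  have v1 := mns (vl_22 H.q1)
  have e2 := mns (nd_13 H.q3)
  have v2 := mns (vl_13 H.q3)
  have key := LB.B2p1p_mm.fin203 (t := t) (T := t + t') (by linarith) (by linarith) (by linarith) (by linarith) (by linarith) (by linarith) (by linarith) (hoB H e1 e2) (l1B H e1 e2) (l3B H e1 e2)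
  exact useB_203 H (Or.inr rfl) (Or.inr rfl) e1 e2 v1 v2 key.le

theorem B21_mm_213 : TriB 2 1 3 2 1 (-1) (-1) := by
  intro t t' H
  have hp := h0_pos
  obtain ⟨a1, a2⟩ := Q2.1 H.q1
  obtain ⟨b1, b2⟩ := Q1.1 H.q2
  obtain ⟨g1, g2⟩ := Q3.1 H.q3
  have e1 := mns (nd_22 H.q1)
  have v1 := mns (vl_22 H.q1)
  have e2 := mns (nd_13 H.q3)
  have v2 := mns (vl_13 H.q3)
  have key := LB.B2p1p_mm.fin213 (t := t) (T := t + t') (by linarith) (by linarith) (by linarith) (by linarith) (by linarith) (by linarith) (by linarith) (hoB H e1 e2) (l1B H e1 e2) (l3B H e1 e2)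
  exact useB_213 H (Or.inr rfl) (Or.inr rfl) e1 e2 v1 v2 key.le

theorem B21_mm_303 : TriB 3 0 3 2 1 (-1) (-1) := by
  intro t t' H
  have hp := h0_pos
  obtain ⟨a1, a2⟩ := Q3.1 H.q1
  obtain ⟨b1, b2⟩ := Q0.1 H.q2
  obtain ⟨g1, g2⟩ := Q3.1 H.q3
  have e1 := mns (nd_23 H.q1)
  have v1 := mns (vl_23 H.q1)
  have e2 := mns (nd_13 H.q3)
  have v2 := mns (vl_13 H.q3)
  have key := LB.B2p1p_mm.fin303 (t := t) (T := t + t') (by linarith) (by linarith) (by linarith) (by linarith) (by linarith) (by linarith) (by linarith) (hoB H e1 e2) (l1B H e1 e2) (l3B H e1 e2)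
  exact useB_303 H (Or.inr rfl) (Or.inr rfl) e1 e2 v1 v2 key.le

theorem B21_mm_313 : TriB 3 1 3 2 1 (-1) (-1) := by
  intro t t' H
  have hp := h0_pos
  obtain ⟨a1, a2⟩ := Q3.1 H.q1
  obtain ⟨b1, b2⟩ := Q1.1 H.q2
  obtain ⟨g1, g2⟩ := Q3.1 H.q3
  have e1 := mns (nd_23 H.q1)
  have v1 := mns (vl_23 H.q1)
  have e2 := mns (nd_13 H.q3)
  have v2 := mns (vl_13 H.q3)
  have key := LB.B2p1p_mm.fin313 (t := t) (T := t + t') (by linarith) (by linarith) (by linarith) (by linarith) (by linarith) (by linarith) (by linarith) (hoB H e1 e2) (l1B H e1 e2) (l3B H e1 e2)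
  exact useB_313 H (Or.inr rfl) (Or.inr rfl) e1 e2 v1 v2 key.le

theorem B21_pp 
    (c102 : CubeB 1 0 2 2 1 1 1) :
    FamWB PF 2 1 1 1 := by
  refine AllTriB.fam (Or.inl rfl) (Or.inl rfl) ⟨B21_pp_001, B21_pp_011, B21_pp_012, B21_pp_022, B21_pp_023, B21_pp_033, B21_pp_101, B21_pp_102 c102, B21_pp_112, B21_pp_113, B21_pp_123, B21_pp_133, B21_pp_202, B21_pp_203, B21_pp_213, B21_pp_303, B21_pp_313⟩

theorem B21_pm :
    FamWB PF 2 1 1 (-1) := by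
  refine AllTriB.fam (Or.inl rfl) (Or.inr rfl) ⟨B21_pm_001, B21_pm_011, B21_pm_012, B21_pm_022, B21_pm_023, B21_pm_033, B21_pm_101, B21_pm_102, B21_pm_112, B21_pm_113, B21_pm_123, B21_pm_133, B21_pm_202, B21_pm_203, B21_pm_213, B21_pm_303, B21_pm_313⟩

theorem B21_mm :
    FamWB PF 2 1 (-1) (-1) := by
  refine AllTriB.fam (Or.inr rfl) (Or.inr rfl) ⟨B21_mm_001, B21_mm_011, B21_mm_012, B21_mm_022, B21_mm_023, B21_mm_033, B21_mm_101, B21_mm_102, B21_mm_112, B21_mm_113, B21_mm_123, B21_mm_133, B21_mm_202, B21_mm_203, B21_mm_213, B21_mm_303, B21_mm_313⟩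

end Pool.Agent.Strip051.LC.Line.Glue
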